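import Pool.Agent.Helper67.SPN.Ta
import Pool.Agent.Helper14.RG.LC.Prod

/-!
# The spin group is Zariski closed in the Clifford algebra
-/

namespace Pool.Agent.Helper67.SPN

open Matrix CliffordAlgebra Pool.Agent.Helper14.RG Pool.Agent.Helper97.CG MvPolynomial

section aff

variable {k : Type*} [Field k] [CharZero k] {n : Type} [Fintype n] [DecidableEq n]

/-- the polynomial functions on the Clifford algebra -/
def polyF (n : Type) [Fintype n] (k : Type*) [Field k] : Subalgebra k (Cln n k → k) :=
  Algebra.adjoin k {f | ∃ φ : Cln n k →ₗ[k] k, f = fun x => φ x}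

lemma polyF_lin : CReg (polyF n k) (fun x : Cln n k => x) := fun φ =>
  Algebra.subset_adjoin ⟨φ, rfl⟩

lemma dual_sep {x y : Cln n k} (h : ∀ φ : Cln n k →ₗ[k] k, φ x = φ y) : x = y := by
  rw [← sub_eq_zero, ← Module.forall_dual_apply_eq_zero_iff k]
  intro φ
  rw [map_sub, h φ, sub_self]

lemma neg_one_mem_pin [IsAlgClosed k] [Nonempty n] : (-1 : Cln n k) ∈ pinGroup (Qn n k) := by
  obtain ⟨i0⟩ := ‹Nonempty n›
  obtain ⟨c, hc⟩ := IsAlgClosed.exists_pow_nat_eq (-1 : k) (n := 2) two_pos
  let v : n → k := Pi.single i0 c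
  have hv : v ⬝ᵥ v = -1 := by
    show Pi.single i0 c ⬝ᵥ Pi.single i0 c = -1
    rw [single_dotProduct, Pi.single_eq_same, ← pow_two, hc]
  have h1 : ι (Qn n k) v ∈ pinGroup (Qn n k) := by
    have e1 : ι (Qn n k) v * star (ι (Qn n k) v) = 1 := by
      rw [star_ι, mul_neg, ι_sq, hv, map_neg, map_one, neg_neg]
    have e2 : star (ι (Qn n k) v) * ι (Qn n k) v = 1 := by
      rw [star_ι, neg_mul, ι_sq, hv, map_neg, map_one, neg_neg]
    exact ⟨⟨⟨_, _, e1, e2⟩, Subgroup.subset_closure ⟨v, rfl⟩, rfl⟩, e2, e1⟩
  have h2 := mul_mem h1 h1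
  rwa [ι_sq, hv, map_neg, map_one] at h2

/-- an even unitary element which preserves the vectors is in the spin group -/
lemma mem_spin_of [IsAlgClosed k] [Nonempty n] (w : Cln n k) (h1 : w * star w = 1)
    (h2 : star w * w = 1) (h3 : involute w = w)
    (A : Matrix n n k) (h4 : ∀ v, w * ι (Qn n k) v * star w = ι (Qn n k) (A *ᵥ v)) :
    w ∈ spinGroup (Qn n k) := by
  have hA : Aᵀ * A = 1 := by
    have e1 : ∀ v u : n → k, (A *ᵥ v) ⬝ᵥ (A *ᵥ u) = v ⬝ᵥ u := by
      intro v u
      have e2 := ι_mul_ι (A *ᵥ v) (A *ᵥ u)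
      have e3 : ∀ a b : n → k, ι (Qn n k) (A *ᵥ a) * ι (Qn n k) (A *ᵥ b)
          = w * (ι (Qn n k) a * ι (Qn n k) b) * star w := by
        intro a b
        rw [← h4, ← h4]
        calc w * ι (Qn n k) a * star w * (w * ι (Qn n k) b * star w)
            = w * ι (Qn n k) a * (star w * w) * (ι (Qn n k) b * star w) := by
              simp only [mul_assoc]
          _ = w * (ι (Qn n k) a * ι (Qn n k) b) * star w := by
            rw [h2, mul_one]; simp only [mul_assoc]
      rw [e3, e3, ← add_mul, ← mul_add, ι_mul_ι, ← Algebra.commutes, mul_assoc, h1, mul_one] at e2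
      have e4 := algebraMap_inj (Qn n k) e2
      exact (mul_left_cancel₀ two_ne_zero e4).symm
    ext i j
    have e5 := e1 (Pi.single i 1) (Pi.single j 1)
    rw [mulVec_single_one, mulVec_single_one, single_one_dotProduct] at e5
    rw [Matrix.mul_apply, Matrix.one_apply]
    have e6 : (∑ l, Aᵀ i l * A l j) = A.col i ⬝ᵥ A.col j := rfl
    rw [e6, e5, Pi.single_apply]
  obtain ⟨y, i, hy, hc⟩ := pin_lift A hA
  obtain ⟨c, hcc⟩ := lemmaZ (star y * w) (by
    intro v
    have e1 : w * ι (Qn n k) v * star w = involute y * ι (Qn n k) v * star y := by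
      rw [h4, hc.act]
    have e2 : involute (star y) * involute y = 1 := by rw [← map_mul, hc.inv_mul, map_one]
    calc ι (Qn n k) v * (star y * w)
        = (involute (star y) * involute y) * ι (Qn n k) v * star y * w := by
          rw [e2, one_mul, mul_assoc]
      _ = involute (star y) * (involute y * ι (Qn n k) v * star y) * w := by
          simp only [mul_assoc]
      _ = involute (star y) * w * ι (Qn n k) v * (star w * w) := by
          rw [← e1]; simp only [mul_assoc]
      _ = involute (star y * w) * ι (Qn n k) v := by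
          rw [h2, mul_one, map_mul, h3])
  have hw : w = c • y := by
    calc w = y * (star y * w) := by rw [← mul_assoc, hc.mul_inv, one_mul]
      _ = c • y := by rw [hcc, ← Algebra.commutes, Algebra.smul_def]
  have hcc1 : c * c = 1 := by
    have e1 : w * star w = (c * c) • (1 : Cln n k) := by
      rw [hw, CliffordAlgebra.star_smul, smul_mul_smul_comm, hc.mul_inv]
    rw [h1] at e1
    apply algebraMap_inj (Qn n k)
    rw [Algebra.algebraMap_eq_smul_one, ← e1, map_one]
  refine ⟨?_, mem_evenOdd_iff.mpr (by rw [h3, sg_zero, one_smul])⟩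
  rcases mul_self_eq_one_iff.mp hcc1 with h5 | h5
  · rw [hw, h5, one_smul]
    exact hy
  · rw [hw, h5, neg_smul, one_smul, ← neg_one_mul]
    exact mul_mem neg_one_mem_pin hy

/-- AFFS -/
theorem spin_aff [IsAlgClosed k] [Nonempty n] : Aff (sAlg n k) := by
  classical
  let b := Module.finBasis k (Cln n k)
  refine Aff.of (N := Fin (Module.finrank k (Cln n k)))
    (fun i (g : SpinG n k) => b.coord i (g : Cln n k)) ?_ ?_
  · apply le_antisymm
    · refine Algebra.adjoin_le ?_
      rintro _ ⟨φ, rfl⟩
      have h1 : (fun g : SpinG n k => φ (g : Cln n k))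
          = ∑ i, (φ (b i)) • (fun g : SpinG n k => b.coord i (g : Cln n k)) := by
        funext g
        rw [Finset.sum_apply]
        nth_rewrite 1 [← b.sum_repr (g : Cln n k)]
        rw [map_sum]
        refine Finset.sum_congr rfl fun i _ => ?_
        rw [map_smul, Pi.smul_apply, smul_eq_mul, smul_eq_mul, mul_comm]
        rfl
      rw [h1]
      exact sum_mem fun i _ => Subalgebra.smul_mem _ (Algebra.subset_adjoin (Set.mem_range_self i)) _
    · refine Algebra.adjoin_le ?_
      rintro _ ⟨i, rfl⟩
      exact lin_mem (b.coord i)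
  · intro z hz
    let w : Cln n k := ∑ i, z i • b i
    have hwz : ∀ i, b.coord i w = z i := by
      intro i
      show b.coord i (∑ i, z i • b i) = z i
      rw [Module.Basis.coord_apply, Module.Basis.repr_sum_self]
    have key : ∀ F ∈ polyF n k, (∀ g : SpinG n k, F (g : Cln n k) = 0) → F w = 0 := by
      have h1 : ∀ F ∈ polyF n k, ∃ P : MvPolynomial (Fin (Module.finrank k (Cln n k))) k,
          ∀ y : Cln n k, F y = eval (fun i => b.coord i y) P := by
        intro F hF
        induction hF using Algebra.adjoin_induction with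
        | mem x hx =>
          obtain ⟨φ, rfl⟩ := hx
          refine ⟨∑ i, C (φ (b i)) * X i, fun y => ?_⟩
          rw [map_sum]
          show φ y = _
          nth_rewrite 1 [← b.sum_repr y]
          rw [map_sum]
          refine Finset.sum_congr rfl fun i _ => ?_
          rw [map_smul, map_mul, eval_C, eval_X, smul_eq_mul, mul_comm]
          rfl
        | algebraMap r => exact ⟨C r, fun y => by rw [eval_C]; rfl⟩
        | add x y _ _ hx hy =>
          obtain ⟨P, hP⟩ := hx
          obtain ⟨Q, hQ⟩ := hy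
          exact ⟨P + Q, fun y => by rw [map_add, ← hP, ← hQ]; rfl⟩
        | mul x y _ _ hx hy =>
          obtain ⟨P, hP⟩ := hx
          obtain ⟨Q, hQ⟩ := hy
          exact ⟨P * Q, fun y => by rw [map_mul, ← hP, ← hQ]; rfl⟩
      intro F hF h0
      obtain ⟨P, hP⟩ := h1 F hF
      rw [hP, show (fun i => b.coord i w) = z from funext hwz]
      exact hz P (fun g => by rw [← hP]; exact h0 g)
    have keyC : ∀ f f' : Cln n k → Cln n k, CReg (polyF n k) f → CReg (polyF n k) f' →
        (∀ g : SpinG n k, f (g : Cln n k) = f' (g : Cln n k)) → f w = f' w := by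
      intro f f' hf hf' h
      apply dual_sep
      intro φ
      have h1 := key ((fun x => φ (f x)) - fun x => φ (f' x)) (sub_mem (hf φ) (hf' φ)) (by
        intro g
        rw [Pi.sub_apply, h g, sub_self])
      rw [Pi.sub_apply] at h1
      exact sub_eq_zero.mp h1
    have hid : CReg (polyF n k) (fun x : Cln n k => x) := polyF_lin
    obtain ⟨L, hL⟩ := exists_vec n k
    have e1 := keyC (fun x => x * star x) (fun _ => 1) (hid.mul hid.star) (CReg.const 1)
      (fun g => spinGroup.mul_star_self_of_mem g.2)
    have e2 := keyC (fun x => star x * x) (fun _ => 1) (hid.star.mul hid) (CReg.const 1)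
      (fun g => spinGroup.star_mul_self_of_mem g.2)
    have e3 := keyC (fun x => involute x) (fun x => x) hid.involute hid
      (fun g => spinGroup.involute_eq g.2)
    have e4 : ∀ v, ι (Qn n k) (L (w * ι (Qn n k) v * star w)) = w * ι (Qn n k) v * star w := by
      intro v
      have hc : CReg (polyF n k) (fun x => x * ι (Qn n k) v * star x) :=
        (hid.mul (CReg.const _)).mul hid.star
      exact keyC (fun x => ι (Qn n k) (L (x * ι (Qn n k) v * star x)))
        (fun x => x * ι (Qn n k) v * star x) (hc.lin ((ι (Qn n k)).comp L)) hc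
        (fun g => by rw [← rho_spec, hL])
    let A' : (n → k) →ₗ[k] (n → k) := L.comp (((LinearMap.mulRight k (star w)).comp
      (LinearMap.mulLeft k w)).comp (ι (Qn n k)))
    have hA' : ∀ v, A' v = L (w * ι (Qn n k) v * star w) := fun v => rfl
    have hmem : w ∈ spinGroup (Qn n k) := by
      refine mem_spin_of w e1 e2 e3 (LinearMap.toMatrix' A') ?_
      intro v
      rw [← Matrix.toLin'_apply, Matrix.toLin'_toMatrix', hA', e4]
    exact ⟨⟨w, hmem⟩, hwz⟩

/-- the spin group of the zero space is trivial -/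
lemma spin_trivial [IsEmpty n] (g : SpinG n k) : g = 1 := by
  apply spin_coe_inj
  obtain ⟨y, hy, hyg⟩ := pinGroup.mem_lipschitzGroup (spinGroup.mem_pin g.2)
  have h1 : ((↑) ⁻¹' Set.range (ι (Qn n k)) : Set (Cln n k)ˣ) = ∅ := by
    apply Set.eq_empty_of_forall_notMem
    rintro u ⟨v, hv⟩
    have h2 : v = 0 := Subsingleton.elim _ _
    rw [h2, map_zero] at hv
    exact Units.ne_zero u hv.symm
  have h3 : y ∈ (⊥ : Subgroup (Cln n k)ˣ) := by
    rw [← Subgroup.closure_empty, ← h1]
    exact hy
  rw [Subgroup.mem_bot] at h3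
  rw [← hyg, h3]
  rfl

/-- AFFS, all `n` -/
theorem spin_aff_all [IsAlgClosed k] : Aff (sAlg n k) := by
  rcases isEmpty_or_nonempty n with hn | hn
  · have h0 : sAlg n k = Algebra.adjoin k (Set.range (fun (_ : PUnit.{1}) (_ : SpinG n k) =>
        (1 : k))) := by
      apply le_antisymm
      · refine Algebra.adjoin_le ?_
        rintro _ ⟨φ, rfl⟩
        have h1 : (fun g : SpinG n k => φ (g : Cln n k)) = algebraMap k _ (φ 1) := by
          funext g
          rw [spin_trivial g]
          rfl
        rw [h1]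
        exact Subalgebra.algebraMap_mem _ _
      · refine Algebra.adjoin_le ?_
        rintro _ ⟨_, rfl⟩
        exact one_mem _
    refine Aff.of _ h0 ?_
    intro z hz
    refine ⟨1, fun i => ?_⟩
    have h1 := hz (X i - C 1) (by
      intro g
      rw [map_sub, eval_X, eval_C, sub_self])
    rw [map_sub, eval_X, eval_C, sub_eq_zero] at h1
    exact h1.symm
  · exact spin_aff

end aff

end Pool.Agent.Helper67.SPN
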