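import Pool.Agent.Helper67.SPN.Defs

/-!
# Basic facts on the Clifford algebra of `∑ xᵢ²`
-/

namespace Pool.Agent.Helper67.SPN

open Matrix CliffordAlgebra

section gen

variable {k : Type*} [Field k] [CharZero k]

/-- `2` is invertible -/
abbrev inv2 (k : Type*) [Field k] [CharZero k] : Invertible (2 : k) :=
  invertibleOfNonzero two_ne_zero

lemma ι_injective {M : Type*} [AddCommGroup M] [Module k M] (Q : QuadraticForm k M) :
    Function.Injective (ι Q) := by
  letI := inv2 k
  intro x y h
  have h1 := congrArg (equivExterior Q) h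
  simp only [equivExterior, changeFormEquiv_apply, changeForm_ι] at h1
  exact (ExteriorAlgebra.ι_inj k x y).mp h1

instance cl_nontrivial {M : Type*} [AddCommGroup M] [Module k M] (Q : QuadraticForm k M) :
    Nontrivial (CliffordAlgebra Q) := by
  letI := inv2 k
  infer_instance

lemma algebraMap_inj {M : Type*} [AddCommGroup M] [Module k M] (Q : QuadraticForm k M) {a b : k}
    (h : algebraMap k (CliffordAlgebra Q) a = algebraMap k (CliffordAlgebra Q) b) : a = b :=
  (algebraMap k (CliffordAlgebra Q)).injective h

instance cl_finite {M : Type*} [AddCommGroup M] [Module k M] [Module.Finite k M]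
    (Q : QuadraticForm k M) : Module.Finite k (CliffordAlgebra Q) := by
  letI := inv2 k
  have h : Module.Finite k (ExteriorAlgebra k M) :=
    Module.Finite.of_basis (Module.finBasis k M).ExteriorAlgebra
  exact Module.Finite.equiv (equivExterior Q).symm

/-- the contraction as a twisted commutator -/
lemma comm_contract {M : Type*} [AddCommGroup M] [Module k M] (Q : QuadraticForm k M) (v : M)
    (x : CliffordAlgebra Q) :
    ι Q v * x - involute x * ι Q v = contractLeft (QuadraticMap.polarBilin Q v) x := by
  induction x using CliffordAlgebra.left_induction with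
  | algebraMap r =>
    rw [contractLeft_algebraMap, AlgHom.commutes, Algebra.commutes, sub_self]
  | add x y hx hy =>
    rw [map_add, map_add, ← hx, ← hy, mul_add, add_mul]
    abel
  | ι_mul x a hx =>
    rw [contractLeft_ι_mul, ← hx, map_mul, involute_ι, QuadraticMap.polarBilin_apply_apply,
      Algebra.smul_def, ← ι_mul_ι_add_swap]
    noncomm_ring

/-- the Euler operator of the exterior algebra -/
noncomputable def euler {n : Type} [Fintype n] [DecidableEq n] :
    ExteriorAlgebra k (n → k) →ₗ[k] ExteriorAlgebra k (n → k) :=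
  ∑ i : n, (LinearMap.mulLeft k (ExteriorAlgebra.ι k (Pi.single i (1 : k)))).comp
    (contractLeft (Q := (0 : QuadraticForm k (n → k))) (LinearMap.proj i))

lemma euler_apply {n : Type} [Fintype n] [DecidableEq n] (x : ExteriorAlgebra k (n → k)) :
    euler x = ∑ i : n, ExteriorAlgebra.ι k (Pi.single i (1 : k)) *
      contractLeft (Q := (0 : QuadraticForm k (n → k))) (LinearMap.proj i) x := by
  unfold euler
  rw [LinearMap.sum_apply]
  rfl

lemma euler_ι_mul {n : Type} [Fintype n] [DecidableEq n] (v : n → k)
    (x : ExteriorAlgebra k (n → k)) :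
    euler (ExteriorAlgebra.ι k v * x) = ExteriorAlgebra.ι k v * x +
      ExteriorAlgebra.ι k v * euler x := by
  rw [euler_apply, euler_apply]
  have h1 : ∀ i : n, ExteriorAlgebra.ι k (Pi.single i (1 : k)) *
      contractLeft (Q := (0 : QuadraticForm k (n → k))) (LinearMap.proj i)
        (ExteriorAlgebra.ι k v * x)
      = ExteriorAlgebra.ι k (v i • Pi.single i (1 : k)) * x + ExteriorAlgebra.ι k v *
        (ExteriorAlgebra.ι k (Pi.single i (1 : k)) *
          contractLeft (Q := (0 : QuadraticForm k (n → k))) (LinearMap.proj i) x) := by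
    intro i
    have h2 : contractLeft (Q := (0 : QuadraticForm k (n → k))) (LinearMap.proj i)
        (ExteriorAlgebra.ι k v * x) = v i • x - ExteriorAlgebra.ι k v *
          contractLeft (Q := (0 : QuadraticForm k (n → k))) (LinearMap.proj i) x :=
      contractLeft_ι_mul _ _ _
    have h3 : ExteriorAlgebra.ι k (Pi.single i (1 : k)) * ExteriorAlgebra.ι k v
        = - (ExteriorAlgebra.ι k v * ExteriorAlgebra.ι k (Pi.single i (1 : k))) :=
      eq_neg_of_add_eq_zero_left (ExteriorAlgebra.ι_add_mul_swap _ _)
    rw [h2, mul_sub, ← mul_assoc, h3, map_smul, neg_mul, sub_neg_eq_add, mul_smul_comm,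
      smul_mul_assoc, mul_assoc]
  rw [Finset.sum_congr rfl fun i _ => h1 i, Finset.sum_add_distrib, ← Finset.sum_mul, ← map_sum,
    ← Finset.mul_sum]
  congr 3
  ext j
  simp [Finset.sum_apply, Pi.single_apply]

lemma euler_pow {n : Type} [Fintype n] [DecidableEq n] (d : ℕ) (x : ExteriorAlgebra k (n → k))
    (hx : x ∈ LinearMap.range (ExteriorAlgebra.ι k : (n → k) →ₗ[k] _) ^ d) :
    euler x = (d : k) • x := by
  induction hx using Submodule.pow_induction_on_left' with
  | algebraMap r =>
    rw [euler_apply]
    simp only [Nat.cast_zero, zero_smul]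
    refine Finset.sum_eq_zero fun i _ => ?_
    have h1 : contractLeft (Q := (0 : QuadraticForm k (n → k))) (LinearMap.proj i)
      (algebraMap k _ r) = 0 := contractLeft_algebraMap _ _ _
    rw [show (algebraMap k (ExteriorAlgebra k (n → k)) r) = algebraMap k (CliffordAlgebra
      (0 : QuadraticForm k (n → k))) r from rfl, h1, mul_zero]
  | add x y i hx hy h1 h2 => rw [map_add, h1, h2, smul_add]
  | mem_mul m hm i x hx h1 =>
    obtain ⟨v, rfl⟩ := hm
    rw [euler_ι_mul, h1, mul_smul_comm, Nat.succ_eq_add_one, Nat.cast_add, Nat.cast_one, add_smul,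
      one_smul, add_comm]

/-- an element of the exterior algebra with zero contractions is a scalar -/
lemma ext_scalar {n : Type} [Fintype n] [DecidableEq n] (x : ExteriorAlgebra k (n → k))
    (hx : ∀ i : n, contractLeft (Q := (0 : QuadraticForm k (n → k))) (LinearMap.proj i) x = 0) :
    ∃ c : k, x = algebraMap k _ c := by
  have h0 : euler x = 0 := by
    rw [euler_apply]
    refine Finset.sum_eq_zero fun i _ => ?_
    rw [hx i, mul_zero]
  let 𝒜 : ℕ → Submodule k (ExteriorAlgebra k (n → k)) :=
    fun i => LinearMap.range (ExteriorAlgebra.ι k : (n → k) →ₗ[k] _) ^ i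
  letI : GradedAlgebra 𝒜 := ExteriorAlgebra.gradedAlgebra k (n → k)
  have h1 : ∀ (i : ℕ) (y : ExteriorAlgebra k (n → k)),
      (DirectSum.decompose 𝒜 (euler y) i : ExteriorAlgebra k (n → k))
        = (i : k) • (DirectSum.decompose 𝒜 y i : ExteriorAlgebra k (n → k)) := by
    intro i y
    induction y using DirectSum.Decomposition.inductionOn 𝒜 with
    | zero =>
      rw [map_zero, DirectSum.decompose_zero]
      simp
    | @homogeneous j m =>
      rw [euler_pow j _ m.2, DirectSum.decompose_smul, DirectSum.decompose_coe]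
      by_cases hij : j = i
      · subst hij
        rw [DirectSum.smul_apply, DirectSum.of_eq_same, Submodule.coe_smul]
      · rw [DirectSum.smul_apply, DirectSum.of_eq_of_ne _ _ _ (Ne.symm hij)]
        simp
    | add a b ha hb =>
      rw [map_add, DirectSum.decompose_add, DirectSum.decompose_add, DirectSum.add_apply,
        DirectSum.add_apply, Submodule.coe_add, Submodule.coe_add, ha, hb, smul_add]
  have h2 : ∀ i, i ≠ 0 → DirectSum.decompose 𝒜 x i = 0 := by
    intro i hi
    have h3 := h1 i x
    rw [h0, DirectSum.decompose_zero] at h3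
    have h4 : (i : k) • (DirectSum.decompose 𝒜 x i : ExteriorAlgebra k (n → k)) = 0 := by
      rw [← h3]
      simp
    rcases smul_eq_zero.mp h4 with h5 | h5
    · exact absurd (Nat.cast_eq_zero.mp h5) hi
    · exact Subtype.ext h5
  have h3 : x = (DirectSum.decompose 𝒜 x 0 : ExteriorAlgebra k (n → k)) := by
    apply (DirectSum.decompose 𝒜).injective
    rw [DirectSum.decompose_coe]
    apply DFinsupp.ext
    intro i
    by_cases hi : i = 0
    · subst hi
      simp
    · rw [h2 i hi, DirectSum.of_eq_of_ne _ _ _ hi]
  have h4 : (DirectSum.decompose 𝒜 x 0 : ExteriorAlgebra k (n → k)) ∈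
      (1 : Submodule k (ExteriorAlgebra k (n → k))) := by
    have h5 := (DirectSum.decompose 𝒜 x 0).2
    have h6 : 𝒜 0 = 1 := pow_zero _
    exact (le_of_eq h6) h5
  obtain ⟨c, hc⟩ := Submodule.mem_one.mp h4
  exact ⟨c, by rw [h3, ← hc]⟩

/-- an element of a Clifford algebra with zero contractions is a scalar -/
lemma cl_scalar {n : Type} [Fintype n] [DecidableEq n] (Q : QuadraticForm k (n → k))
    (x : CliffordAlgebra Q)
    (hx : ∀ i : n, contractLeft (Q := Q) (LinearMap.proj i) x = 0) :
    ∃ c : k, x = algebraMap k _ c := by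
  letI := inv2 k
  obtain ⟨c, hc⟩ := ext_scalar (changeForm (Q' := 0) changeForm.associated_neg_proof x) (by
    intro i
    rw [← changeForm_contractLeft, hx i, map_zero])
  refine ⟨c, ?_⟩
  apply (changeFormEquiv (Q' := 0) (changeForm.associated_neg_proof (Q := Q))).injective
  rw [changeFormEquiv_apply, changeFormEquiv_apply, changeForm_algebraMap]
  exact hc

variable {n : Type} [Fintype n] [DecidableEq n]

/-- Lemma Z: the twisted centre of the Clifford algebra is the field of scalars. -/
lemma lemmaZ (x : Cln n k) (hx : ∀ v, ι (Qn n k) v * x = involute x * ι (Qn n k) v) :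
    ∃ c : k, x = algebraMap k _ c := by
  apply cl_scalar
  intro i
  have h1 := comm_contract (Qn n k) (Pi.single i 1) x
  rw [hx, sub_self] at h1
  have h2 : QuadraticMap.polarBilin (Qn n k) (Pi.single i 1) = (2 : k) • LinearMap.proj i := by
    ext j
    simp only [QuadraticMap.polarBilin_apply_apply, LinearMap.comp_apply, polar_Qn]
    simp [Pi.single_apply, eq_comm]
  rw [h2, map_smul, LinearMap.smul_apply] at h1
  rcases smul_eq_zero.mp h1.symm with h3 | h3
  · exact absurd h3 two_ne_zero
  · exact h3

/-- an even element which commutes with the vectors is a scalar -/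
lemma even_central (x : Cln n k) (he : x ∈ evenOdd (Qn n k) 0)
    (hx : ∀ v, ι (Qn n k) v * x = x * ι (Qn n k) v) : ∃ c : k, x = algebraMap k _ c := by
  apply lemmaZ
  intro v
  rw [involute_eq_of_mem_even he, hx]

/-- an odd element which anticommutes with the vectors is zero -/
lemma odd_central (x : Cln n k) (he : x ∈ evenOdd (Qn n k) 1)
    (hx : ∀ v, ι (Qn n k) v * x = -(x * ι (Qn n k) v)) : x = 0 := by
  obtain ⟨c, hc⟩ := lemmaZ x (by
    intro v
    rw [involute_eq_of_mem_odd he, hx, neg_mul])
  have h1 := involute_eq_of_mem_odd he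
  rw [hc, AlgHom.commutes] at h1
  have h2 : (2 : k) • x = 0 := by
    rw [hc, two_smul]
    nth_rewrite 1 [h1]
    exact neg_add_cancel _
  exact (smul_eq_zero.mp h2).resolve_left two_ne_zero

end gen

end Pool.Agent.Helper67.SPN
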