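import Pool.Agent.Helper97.CG.Defs

/-!
# The spin group `Spin_n(k)` and its regular functions (MP_005e41, extension)

`Qn n k` is the form `∑ xᵢ²` on `kⁿ`, `SpinG n k` is Mathlib's `spinGroup` of it, `sAlg n k` the
algebra generated by the linear functionals of the Clifford algebra, `rho : Spin_n → SO_n` the
covering.
-/

namespace Pool.Agent.Helper67.SPN

open Matrix CliffordAlgebra Pool.Agent.Helper14.RG Pool.Agent.Helper97.CG

section

variable (n : Type) [Fintype n] (k : Type*) [Field k]

/-- The form `∑ xᵢ²` on `kⁿ`. -/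
abbrev Qn : QuadraticForm k (n → k) := QuadraticMap.weightedSumSquares k (fun _ : n => (1 : k))

/-- The Clifford algebra. -/
abbrev Cln : Type _ := CliffordAlgebra (Qn n k)

/-- The spin group. -/
abbrev SpinG : Type _ := spinGroup (Qn n k)

/-- The regular functions of the spin group: generated by the linear functionals of the Clifford
algebra. -/
def sAlg : Subalgebra k (SpinG n k → k) :=
  Algebra.adjoin k {f | ∃ φ : Cln n k →ₗ[k] k, f = fun g : SpinG n k => φ (g : Cln n k)}

variable {n k}

lemma Qn_apply (v : n → k) : Qn n k v = v ⬝ᵥ v := by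
  rw [QuadraticMap.weightedSumSquares_apply]
  simp [dotProduct]

lemma polar_Qn (v w : n → k) : QuadraticMap.polar (Qn n k) v w = 2 * (v ⬝ᵥ w) := by
  unfold QuadraticMap.polar
  rw [Qn_apply, Qn_apply, Qn_apply]
  simp only [add_dotProduct, dotProduct_add]
  rw [dotProduct_comm w v]
  ring

lemma ι_mul_ι (v w : n → k) :
    ι (Qn n k) v * ι (Qn n k) w + ι (Qn n k) w * ι (Qn n k) v
      = algebraMap k _ (2 * (v ⬝ᵥ w)) := by
  rw [ι_mul_ι_add_swap, polar_Qn]

lemma ι_sq (v : n → k) : ι (Qn n k) v * ι (Qn n k) v = algebraMap k _ (v ⬝ᵥ v) := by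
  rw [ι_sq_scalar, Qn_apply]

end

end Pool.Agent.Helper67.SPN
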