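import Pool.Agent.Helper67.SPN.Reg

/-!
# The isomorphisms `T_a : Spin_n ≃ Spin_m` of orthogonal matrices `a`
-/

namespace Pool.Agent.Helper67.SPN

open Matrix CliffordAlgebra Pool.Agent.Helper14.RG Pool.Agent.Helper97.CG

section par

variable {k : Type*} [Field k] [CharZero k] {n : Type} [Fintype n]

lemma mem_evenOdd_iff {i : ZMod 2} {x : Cln n k} :
    x ∈ evenOdd (Qn n k) i ↔ involute x = sg k i • x := by
  refine ⟨fun h => ?_, fun h => ?_⟩
  · rcases z2_cases i with rfl | rfl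
    · rw [sg_zero, one_smul]
      exact involute_eq_of_mem_even h
    · rw [sg_one, neg_smul, one_smul]
      exact involute_eq_of_mem_odd h
  · obtain ⟨a, ha, b, hb, rfl⟩ := Submodule.mem_sup.mp
      (((evenOdd_isCompl (Qn n k)).sup_eq_top ▸ Submodule.mem_top :
        x ∈ evenOdd (Qn n k) 0 ⊔ evenOdd (Qn n k) 1))
    rw [map_add, involute_eq_of_mem_even ha, involute_eq_of_mem_odd hb] at h
    rcases z2_cases i with rfl | rfl
    · rw [sg_zero, one_smul] at h
      have h1 : (2 : k) • b = 0 := by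
        rw [two_smul]
        have h2 : b = -b := (add_left_cancel h).symm
        nth_rewrite 1 [h2]
        exact neg_add_cancel b
      rw [(smul_eq_zero.mp h1).resolve_left two_ne_zero, add_zero]
      exact ha
    · rw [sg_one, neg_smul, one_smul, neg_add] at h
      have h1 : (2 : k) • a = 0 := by
        rw [two_smul]
        have h2 : a = -a := add_right_cancel h
        nth_rewrite 1 [h2]
        exact neg_add_cancel a
      rw [(smul_eq_zero.mp h1).resolve_left two_ne_zero, zero_add]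
      exact hb

end par

section mapA

variable {k : Type*} [Field k] {n m l : Type} [Fintype n] [Fintype m] [Fintype l]
  [DecidableEq n] [DecidableEq m] [DecidableEq l]

/-- The isometry `v ↦ a v`. -/
def isoQ (a : Matrix m n k) (ha : aᵀ * a = 1) : Qn n k →qᵢ Qn m k where
  toLinearMap := a.mulVecLin
  map_app' v := by
    show Qn m k (a *ᵥ v) = Qn n k v
    rw [Qn_apply, Qn_apply, dotProduct_mulVec, ← mulVec_transpose, mulVec_mulVec, ha, one_mulVec]

/-- The algebra map of an isometry. -/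
def mapA (a : Matrix m n k) (ha : aᵀ * a = 1) : Cln n k →ₐ[k] Cln m k :=
  CliffordAlgebra.map (isoQ a ha)

lemma mapA_ι (a : Matrix m n k) (ha : aᵀ * a = 1) (v : n → k) :
    mapA a ha (ι (Qn n k) v) = ι (Qn m k) (a *ᵥ v) :=
  CliffordAlgebra.map_apply_ι _ _

lemma mapA_mapA (a : Matrix m n k) (ha : aᵀ * a = 1) (b : Matrix l m k) (hb : bᵀ * b = 1)
    (hba : (b * a)ᵀ * (b * a) = 1) (x : Cln n k) :
    mapA b hb (mapA a ha x) = mapA (b * a) hba x := by
  have h : (mapA b hb).comp (mapA a ha) = mapA (b * a) hba := by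
    apply CliffordAlgebra.hom_ext
    ext v
    simp only [LinearMap.comp_apply, AlgHom.toLinearMap_apply, AlgHom.comp_apply, mapA_ι,
      mulVec_mulVec]
  exact AlgHom.congr_fun h x

lemma mapA_one (h1 : (1 : Matrix n n k)ᵀ * 1 = 1) (x : Cln n k) : mapA 1 h1 x = x := by
  have h : mapA (1 : Matrix n n k) h1 = AlgHom.id k _ := by
    apply CliffordAlgebra.hom_ext
    ext v
    simp only [LinearMap.comp_apply, AlgHom.toLinearMap_apply, mapA_ι, one_mulVec, AlgHom.coe_id,
      id_eq]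
  rw [h, AlgHom.id_apply]

lemma mapA_involute (a : Matrix m n k) (ha : aᵀ * a = 1) (x : Cln n k) :
    mapA a ha (involute x) = involute (mapA a ha x) := by
  have h : (mapA a ha).comp involute = (involute : Cln m k →ₐ[k] Cln m k).comp (mapA a ha) := by
    apply CliffordAlgebra.hom_ext
    ext v
    simp only [LinearMap.comp_apply, AlgHom.toLinearMap_apply, AlgHom.comp_apply, mapA_ι,
      involute_ι, map_neg]
  exact AlgHom.congr_fun h x

lemma mapA_star (a : Matrix m n k) (ha : aᵀ * a = 1) (x : Cln n k) :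
    mapA a ha (star x) = star (mapA a ha x) := by
  induction x using CliffordAlgebra.induction with
  | algebraMap r =>
    rw [CliffordAlgebra.star_algebraMap, AlgHom.commutes, CliffordAlgebra.star_algebraMap]
  | ι v => rw [star_ι, map_neg, mapA_ι, star_ι]
  | mul x y hx hy => rw [star_mul, map_mul, hx, hy, map_mul, star_mul]
  | add x y hx hy => rw [star_add, map_add, hx, hy, map_add, star_add]

lemma mapA_congr {a b : Matrix m n k} (ha : aᵀ * a = 1) (hb : bᵀ * b = 1) (hab : a = b)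
    (x : Cln n k) : mapA a ha x = mapA b hb x := by
  subst hab
  rfl

variable [CharZero k]

lemma mapA_evenOdd (a : Matrix m n k) (ha : aᵀ * a = 1) {i : ZMod 2} {x : Cln n k}
    (hx : x ∈ evenOdd (Qn n k) i) : mapA a ha x ∈ evenOdd (Qn m k) i := by
  rw [mem_evenOdd_iff] at hx ⊢
  rw [← mapA_involute, hx, map_smul]

/-- on even elements `-a` acts as `a` -/
lemma mapA_neg (a : Matrix m n k) (ha : aᵀ * a = 1) (ha' : (-a)ᵀ * (-a) = 1) {i : ZMod 2}
    {x : Cln n k} (hx : x ∈ evenOdd (Qn n k) i) : mapA (-a) ha' x = sg k i • mapA a ha x := by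
  have h : mapA (-a) ha' = (mapA a ha).comp involute := by
    apply CliffordAlgebra.hom_ext
    ext v
    simp only [LinearMap.comp_apply, AlgHom.toLinearMap_apply, AlgHom.comp_apply, mapA_ι,
      involute_ι, map_neg, neg_mulVec]
  rw [h, AlgHom.comp_apply, mem_evenOdd_iff.mp hx, map_smul]

lemma mapA_lipschitz (a : Matrix m n k) (ha : aᵀ * a = 1) (x : (Cln n k)ˣ)
    (hx : x ∈ lipschitzGroup (Qn n k)) :
    Units.map (mapA a ha : Cln n k →* Cln m k) x ∈ lipschitzGroup (Qn m k) := by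
  unfold lipschitzGroup at hx ⊢
  have h1 : Units.map (mapA a ha : Cln n k →* Cln m k) x ∈ (Subgroup.closure
      ((↑) ⁻¹' Set.range (ι (Qn n k)) : Set (Cln n k)ˣ)).map
        (Units.map (mapA a ha : Cln n k →* Cln m k)) := Subgroup.mem_map_of_mem _ hx
  rw [MonoidHom.map_closure] at h1
  refine Subgroup.closure_mono ?_ h1
  rintro _ ⟨y, ⟨v, hv⟩, rfl⟩
  refine ⟨a *ᵥ v, ?_⟩
  rw [← mapA_ι a ha, hv]
  rfl

lemma mapA_pin (a : Matrix m n k) (ha : aᵀ * a = 1) {x : Cln n k}
    (hx : x ∈ pinGroup (Qn n k)) : mapA a ha x ∈ pinGroup (Qn m k) := by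
  obtain ⟨y, hy, rfl⟩ := pinGroup.mem_lipschitzGroup hx
  refine ⟨⟨_, mapA_lipschitz a ha y hy, rfl⟩, ?_⟩
  constructor
  · rw [← mapA_star, ← map_mul]
    show mapA a ha (star ((Units.coeHom (Cln n k)) y) * (Units.coeHom (Cln n k)) y) = 1
    rw [pinGroup.star_mul_self_of_mem hx, map_one]
  · rw [← mapA_star, ← map_mul]
    show mapA a ha ((Units.coeHom (Cln n k)) y * star ((Units.coeHom (Cln n k)) y)) = 1
    rw [pinGroup.mul_star_self_of_mem hx, map_one]

lemma mapA_spin (a : Matrix m n k) (ha : aᵀ * a = 1) {x : Cln n k}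
    (hx : x ∈ spinGroup (Qn n k)) : mapA a ha x ∈ spinGroup (Qn m k) :=
  ⟨mapA_pin a ha hx.1, mapA_evenOdd a ha hx.2⟩

/-- The isomorphism of spin groups given by an orthogonal matrix `a`. -/
def Ta (a : Matrix m n k) (ha : aᵀ * a = 1) (ha' : a * aᵀ = 1) : SpinG n k ≃* SpinG m k where
  toFun g := ⟨mapA a ha (g : Cln n k), mapA_spin a ha g.2⟩
  invFun g := ⟨mapA aᵀ (by rw [transpose_transpose, ha']) (g : Cln m k),
    mapA_spin aᵀ (by rw [transpose_transpose, ha']) g.2⟩
  left_inv g := by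
    apply spin_coe_inj
    show mapA aᵀ _ (mapA a ha (g : Cln n k)) = g
    rw [mapA_mapA a ha aᵀ _ (by rw [ha, transpose_one, Matrix.one_mul]),
      mapA_congr (b := 1) _ (by rw [transpose_one, Matrix.one_mul]) ha, mapA_one]
  right_inv g := by
    apply spin_coe_inj
    show mapA a ha (mapA aᵀ _ (g : Cln m k)) = g
    rw [mapA_mapA aᵀ _ a ha (by rw [ha', transpose_one, Matrix.one_mul]),
      mapA_congr (b := 1) _ (by rw [transpose_one, Matrix.one_mul]) ha', mapA_one]
  map_mul' g h := by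
    apply spin_coe_inj
    exact map_mul (mapA a ha) (g : Cln n k) (h : Cln n k)

lemma Ta_coe (a : Matrix m n k) (ha : aᵀ * a = 1) (ha' : a * aᵀ = 1) (g : SpinG n k) :
    (Ta a ha ha' g : Cln m k) = mapA a ha (g : Cln n k) := rfl

lemma Ta_symm (a : Matrix m n k) (ha : aᵀ * a = 1) (ha' : a * aᵀ = 1) (hb : aᵀᵀ * aᵀ = 1)
    (hb' : aᵀ * aᵀᵀ = 1) : (Ta a ha ha').symm = Ta aᵀ hb hb' := rfl

lemma Ta_Ta (a : Matrix m n k) (ha : aᵀ * a = 1) (ha' : a * aᵀ = 1) (b : Matrix l m k)
    (hb : bᵀ * b = 1) (hb' : b * bᵀ = 1) (h : (b * a)ᵀ * (b * a) = 1) (h' : b * a * (b * a)ᵀ = 1)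
    (g : SpinG n k) : Ta b hb hb' (Ta a ha ha' g) = Ta (b * a) h h' g := by
  apply spin_coe_inj
  rw [Ta_coe, Ta_coe, Ta_coe]
  exact mapA_mapA a ha b hb h _

lemma Ta_one (h : (1 : Matrix n n k)ᵀ * 1 = 1) (h' : (1 : Matrix n n k) * 1ᵀ = 1)
    (g : SpinG n k) : Ta 1 h h' g = g := by
  apply spin_coe_inj
  rw [Ta_coe]
  exact mapA_one h _

/-- `T_a` is regular -/
lemma Ta_reg (a : Matrix m n k) (ha : aᵀ * a = 1) (ha' : a * aᵀ = 1) {f : SpinG m k → k}
    (hf : f ∈ sAlg m k) : (fun g => f (Ta a ha ha' g)) ∈ sAlg n k := by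
  refine sAlg_comp (sAlg n k) (Ta a ha ha') ?_ hf
  intro φ
  exact lin_mem (φ.comp (mapA a ha).toLinearMap)

lemma Cov.mapA {y z : Cln n k} {A : Matrix n n k} {i : ZMod 2} (h : Cov y z A i)
    (a : Matrix m n k) (ha : aᵀ * a = 1) (ha' : a * aᵀ = 1) :
    Cov (SPN.mapA a ha y) (SPN.mapA a ha z) (a * A * aᵀ) i where
  par := mapA_evenOdd a ha h.par
  mul_inv := by rw [← map_mul, h.mul_inv, map_one]
  inv_mul := by rw [← map_mul, h.inv_mul, map_one]
  orth := by
    rw [transpose_mul, transpose_mul, transpose_transpose]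
    calc a * (Aᵀ * aᵀ) * (a * A * aᵀ) = a * (Aᵀ * ((aᵀ * a) * A)) * aᵀ := by
          simp only [Matrix.mul_assoc]
      _ = 1 := by rw [ha, Matrix.one_mul, h.orth, Matrix.mul_one, ha']
  det := by rw [det_conj_of_mul_eq_one ha' ha, h.det]
  act v := by
    have h1 : ι (Qn m k) v = SPN.mapA a ha (ι (Qn n k) (aᵀ *ᵥ v)) := by
      rw [mapA_ι, mulVec_mulVec, ha', one_mulVec]
    rw [← mapA_involute, h1, ← map_mul, ← map_mul, h.act, mapA_ι, mulVec_mulVec, mulVec_mulVec]

/-- `ρ (T_a g) = a ρ(g) aᵀ` -/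
lemma rho_Ta (a : Matrix m n k) (ha : aᵀ * a = 1) (ha' : a * aᵀ = 1) (g : SpinG n k) :
    isoHom 1 (rho m k (Ta a ha ha' g)) = a * isoHom 1 (rho n k g) * aᵀ := by
  have h1 := rho_cov (Ta a ha ha' g)
  have h2 := (rho_cov g).mapA a ha ha'
  rw [mapA_star] at h2
  exact cov_inj h1 h2

end mapA

end Pool.Agent.Helper67.SPN
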