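import Pool.Agent.Helper67.SPN.Half
import Pool.Agent.Helper67.SPN.Ta
import Pool.Agent.Helper96.SPN.Proj
import Pool.Agent.Helper48.CG.EQV

/-!
# The fixed points of `T_a`
-/

namespace Pool.Agent.Helper67.SPN

open Matrix CliffordAlgebra Pool.Agent.Helper14.RG Pool.Agent.Helper97.CG Pool.Agent.Helper97.SPN

universe u

section avg

variable {k : Type*} [Field k] [CharZero k] {n : Type} [Fintype n] [DecidableEq n]

lemma mul_fix {a E X : Matrix n n k} (h : ∀ v : n → k, a *ᵥ v = v → E *ᵥ v = v) (hX : a * X = X) :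
    E * X = X := by
  ext i j
  exact congrFun (h (fun l => X l j) (by
    funext i'
    exact congrFun (congrFun hX i') j)) i

/-- the symmetric projector on the fixed vectors -/
lemma exists_avg (b : Matrix n n k) (hb : bᵀ * b = 1) (N : ℕ) (hN : 0 < N) (hbN : b ^ N = 1) :
    ∃ E : Matrix n n k, E * E = E ∧ Eᵀ = E ∧ b * E = E ∧ (∀ x, b * x = x * b → E * x = x * E) ∧
      ∀ v : n → k, b *ᵥ v = v → E *ᵥ v = v := by
  have hN0 : (N : k) ≠ 0 := by exact_mod_cast hN.ne'
  obtain ⟨S, hS⟩ : ∃ S : Matrix n n k, S = ∑ j ∈ Finset.range N, b ^ j := ⟨_, rfl⟩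
  have h1 : b * S = S := by
    have h2 : b * S = ∑ j ∈ Finset.range N, b ^ (j + 1) := by
      rw [hS, Finset.mul_sum]
      exact Finset.sum_congr rfl fun j _ => (pow_succ' b j).symm
    have h3 := Finset.sum_range_succ (fun j => b ^ j) N
    have h4 := Finset.sum_range_succ' (fun j => b ^ j) N
    rw [h3, hbN, pow_zero] at h4
    rw [h2, hS]
    exact (add_right_cancel h4).symm
  have h2 : ∀ X : Matrix n n k, b * X = X → S * X = (N : k) • X := by
    intro X hX
    have h5 : ∀ j, b ^ j * X = X := by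
      intro j
      induction j with
      | zero => rw [pow_zero, Matrix.one_mul]
      | succ j ih => rw [pow_succ, Matrix.mul_assoc, hX, ih]
    rw [hS, Finset.sum_mul, Finset.sum_congr rfl fun j _ => h5 j, Finset.sum_const,
      Finset.card_range, Nat.cast_smul_eq_nsmul]
  have h3 : Sᵀ * S = (N : k) • S := by
    have h4 : bᵀ * S = S := by
      nth_rewrite 1 [← h1]
      rw [← Matrix.mul_assoc, hb, Matrix.one_mul]
    have h5 : ∀ j, (b ^ j)ᵀ * S = S := by
      intro j
      induction j with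
      | zero => rw [pow_zero, transpose_one, Matrix.one_mul]
      | succ j ih => rw [pow_succ, transpose_mul, Matrix.mul_assoc, ih, h4]
    have h6 : Sᵀ * S = ∑ j ∈ Finset.range N, (b ^ j)ᵀ * S := by
      nth_rewrite 1 [hS]
      rw [transpose_sum, Finset.sum_mul]
    rw [h6, Finset.sum_congr rfl fun j _ => h5 j, Finset.sum_const, Finset.card_range,
      Nat.cast_smul_eq_nsmul]
  have hSt : Sᵀ = S := by
    have h4 : (Sᵀ * S)ᵀ = Sᵀ * S := by rw [transpose_mul, transpose_transpose]
    rw [h3, transpose_smul] at h4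
    exact smul_right_injective _ hN0 h4
  refine ⟨(N : k)⁻¹ • S, ?_, ?_, ?_, ?_, ?_⟩
  · rw [Matrix.smul_mul, Matrix.mul_smul, h2 S h1, smul_smul, smul_smul, mul_assoc,
      inv_mul_cancel₀ hN0, mul_one]
  · rw [transpose_smul, hSt]
  · rw [Matrix.mul_smul, h1]
  · intro x hx
    have h4 : ∀ j, b ^ j * x = x * b ^ j := by
      intro j
      induction j with
      | zero => rw [pow_zero, Matrix.one_mul, Matrix.mul_one]
      | succ j ih => rw [pow_succ, Matrix.mul_assoc, hx, ← Matrix.mul_assoc, ih, Matrix.mul_assoc]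
    rw [Matrix.smul_mul, Matrix.mul_smul, hS, Finset.sum_mul, Finset.mul_sum,
      Finset.sum_congr rfl fun j _ => h4 j]
  · intro v hv
    have h5 : ∀ j, b ^ j *ᵥ v = v := by
      intro j
      induction j with
      | zero => rw [pow_zero, one_mulVec]
      | succ j ih => rw [pow_succ, ← mulVec_mulVec, hv, ih]
    have h6 : S *ᵥ v = (N : k) • v := by
      rw [hS]
      have h7 : (∑ j ∈ Finset.range N, b ^ j) *ᵥ v = ∑ j ∈ Finset.range N, b ^ j *ᵥ v := by
        exact Matrix.sum_mulVec _ _ _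
      rw [h7, Finset.sum_congr rfl fun j _ => h5 j, Finset.sum_const, Finset.card_range,
        Nat.cast_smul_eq_nsmul]
    rw [smul_mulVec, h6, smul_smul, inv_mul_cancel₀ hN0, one_smul]

end avg

section parts

variable {k : Type*} [Field k] {n : Type} [Fintype n] [DecidableEq n]

/-- the part of `x` on the image of `P` -/
lemma part_orth {x P : Matrix n n k} (hx : xᵀ * x = 1) (hP : P * P = P) (hPt : Pᵀ = P)
    (hc : P * x = x * P) : (x * P + (1 - P))ᵀ * (x * P + (1 - P)) = 1 := by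
  have h1 : (x * P + (1 - P))ᵀ = P * xᵀ + (1 - P) := by
    rw [transpose_add, transpose_mul, hPt, transpose_sub, transpose_one, hPt]
  have h2 : P * (1 - P) = 0 := by rw [Matrix.mul_sub, Matrix.mul_one, hP, sub_self]
  have h3 : (1 - P) * (x * P) = 0 := by
    rw [← hc, ← Matrix.mul_assoc, Matrix.sub_mul, Matrix.one_mul, hP, sub_self, Matrix.zero_mul]
  have h4 : P * xᵀ * (x * P) = P := by
    calc P * xᵀ * (x * P) = P * (xᵀ * x) * P := by simp only [Matrix.mul_assoc]
      _ = P := by rw [hx, Matrix.mul_one, hP]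
  have h5 : P * xᵀ * (1 - P) = 0 := by
    have h6 : P * xᵀ = xᵀ * P := by
      have h7 := congrArg transpose hc
      rw [transpose_mul, transpose_mul, hPt] at h7
      exact h7.symm
    rw [h6, Matrix.mul_assoc, h2, Matrix.mul_zero]
  have h6 : (1 - P) * (1 - P) = 1 - P := by
    rw [Matrix.sub_mul, Matrix.one_mul, h2, sub_zero]
  rw [h1, Matrix.add_mul, Matrix.mul_add, Matrix.mul_add, h3, h4, h5, h6, add_zero, zero_add,
    add_sub_cancel]

lemma part_one {x P : Matrix n n k} (hP : P * P = P) :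
    (x * P + (1 - P)) * (1 - P) = 1 - P := by
  have h2 : P * (1 - P) = 0 := by rw [Matrix.mul_sub, Matrix.mul_one, hP, sub_self]
  have h6 : (1 - P) * (1 - P) = 1 - P := by
    rw [Matrix.sub_mul, Matrix.one_mul, h2, sub_zero]
  rw [Matrix.add_mul, Matrix.mul_assoc, h2, Matrix.mul_zero, zero_add, h6]

lemma part_comm {x P y : Matrix n n k} (hy : y * P = P * y) (hyx : y * x = x * y) :
    y * (x * P + (1 - P)) = (x * P + (1 - P)) * y := by
  rw [Matrix.mul_add, Matrix.add_mul, ← Matrix.mul_assoc, hyx, Matrix.mul_assoc, hy,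
    Matrix.mul_assoc, Matrix.mul_sub, Matrix.sub_mul, Matrix.mul_one, Matrix.one_mul, hy]

end parts

section lists

variable {k : Type*} [Field k] [CharZero k] {n : Type} [Fintype n] [DecidableEq n]

lemma rf_eq {v : n → k} (hv : v ⬝ᵥ v = -1) : Pool.Agent.Helper96.SPN.rf v = refl v := by
  unfold Pool.Agent.Helper96.SPN.rf refl
  rw [hv, div_neg, div_one, neg_smul, sub_neg_eq_add]

lemma cov_unit {v : n → k} (hv : v ⬝ᵥ v = -1) :
    Cov (ι (Qn n k) v) (star (ι (Qn n k) v)) (Pool.Agent.Helper96.SPN.rf v) 1 := by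
  have h0 : v ⬝ᵥ v ≠ 0 := by rw [hv]; exact neg_ne_zero.mpr one_ne_zero
  have h1 := Cov.vec v h0 1 one_ne_zero
  have h2 : (1 * (v ⬝ᵥ v))⁻¹ • ι (Qn n k) v = star (ι (Qn n k) v) := by
    rw [star_ι, hv, one_mul, inv_neg, inv_one, neg_smul, one_smul]
  rw [h2, one_smul] at h1
  rw [rf_eq hv]
  exact h1

lemma cov_list (l : List (n → k)) (hl : ∀ v ∈ l, v ⬝ᵥ v = -1) :
    Cov (l.map fun v => ι (Qn n k) v).prod (star (l.map fun v => ι (Qn n k) v).prod)
      (l.map Pool.Agent.Helper96.SPN.rf).prod (l.length : ZMod 2) := by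
  induction l with
  | nil =>
    simp only [List.map_nil, List.prod_nil, List.length_nil, Nat.cast_zero, star_one]
    exact Cov.one
  | cons v l ih =>
    simp only [List.map_cons, List.prod_cons, List.length_cons, star_mul]
    have h1 := (cov_unit (hl v (List.mem_cons_self))).mul
      (ih fun w hw => hl w (List.mem_cons_of_mem _ hw))
    have h2 : ((l.length + 1 : ℕ) : ZMod 2) = 1 + (l.length : ZMod 2) := by
      push_cast
      exact add_comm _ _
    rw [h2]
    exact h1

lemma mapA_list (a : Matrix n n k) (ha : aᵀ * a = 1) (c : k) (l : List (n → k))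
    (hl : ∀ v ∈ l, a *ᵥ v = c • v) :
    mapA a ha (l.map fun v => ι (Qn n k) v).prod
      = c ^ l.length • (l.map fun v => ι (Qn n k) v).prod := by
  induction l with
  | nil => simp only [List.map_nil, List.prod_nil, List.length_nil, pow_zero, one_smul, map_one]
  | cons v l ih =>
    simp only [List.map_cons, List.prod_cons, List.length_cons]
    rw [map_mul, mapA_ι, hl v List.mem_cons_self, ih fun w hw => hl w (List.mem_cons_of_mem _ hw),
      map_smul, smul_mul_smul_comm, pow_succ']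

end lists

section fix

variable {k : Type u} [Field k] [IsAlgClosed k] [CharZero k] {n : Type} [Fintype n] [DecidableEq n]

/-- `T_a g = det (ρ(g) | ker (a - 1)) g` when `ρ(g)` commutes with `a` -/
theorem Ta_scalar (a E : Matrix n n k) (ha : aᵀ * a = 1) (ha' : a * aᵀ = 1) (h : Proj a E)
    (N : ℕ) (hN : 0 < N) (haN : a ^ N = 1) (hE1 : a * E = E)
    (hE2 : ∀ v : n → k, a *ᵥ v = v → E *ᵥ v = v) (g : SpinG n k)
    (hg : a * isoHom 1 (rho n k g) = isoHom 1 (rho n k g) * a) :
    mapA a ha (g : Cln n k)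
      = (isoHom 1 (rho n k g) * E + (1 - E)).det • (g : Cln n k) := by
  -- `E` is symmetric
  have hEa : E * a = a * E := h.comm a rfl
  have hEt : Eᵀ = E := by
    obtain ⟨E', e1, e2, e3, e4, e5⟩ := exists_avg a ha N hN haN
    have f1 : E * E' = E' := mul_fix hE2 e3
    have f2 : E' * E = E := mul_fix e5 hE1
    have f3 : E * E' = E' * E := h.comm E' (e4 a rfl).symm
    have f4 : E = E' := by rw [← f1, f3, f2]
    rw [f4, e2]
  -- the projector on the eigenspace `-1`
  have hna : (-a)ᵀ * (-a) = 1 := by rw [transpose_neg, neg_mul_neg, ha]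
  have hnaN : (-a) ^ (2 * N) = 1 := by
    rw [pow_mul, neg_sq, ← pow_mul, mul_comm, pow_mul, haN, one_pow]
  obtain ⟨Pm, p1, p2, p3, p4, p5⟩ := exists_avg (-a) hna (2 * N) (by omega) hnaN
  have p3' : a * Pm = -Pm := by
    rw [Matrix.neg_mul] at p3
    exact neg_eq_iff_eq_neg.mp p3
  have p4' : ∀ x, a * x = x * a → Pm * x = x * Pm := fun x hx =>
    p4 x (by rw [Matrix.neg_mul, Matrix.mul_neg, hx])
  have hEP : E * Pm = 0 := by
    have q1 : a * (E * Pm) = E * Pm := by rw [← Matrix.mul_assoc, hE1]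
    have q2 : a * (E * Pm) = -(E * Pm) := by
      rw [← Matrix.mul_assoc, ← hEa, Matrix.mul_assoc, p3', Matrix.mul_neg]
    have q3 : (2 : k) • (E * Pm) = 0 := by
      rw [two_smul]
      nth_rewrite 1 [← q1]
      rw [q2, neg_add_cancel]
    exact (smul_eq_zero.mp q3).resolve_left two_ne_zero
  have hPE : Pm * E = 0 := by rw [p4' E hEa.symm, hEP]
  obtain ⟨P, hPdef⟩ : ∃ P : Matrix n n k, P = 1 - E - Pm := ⟨_, rfl⟩
  have hEP0 : E * P = 0 := by
    rw [hPdef, Matrix.mul_sub, Matrix.mul_sub, Matrix.mul_one, h.idem, hEP, sub_self, sub_zero]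
  have hPmP0 : Pm * P = 0 := by
    rw [hPdef, Matrix.mul_sub, Matrix.mul_sub, Matrix.mul_one, p1, hPE, sub_zero, sub_self]
  have hPP : P * P = P := by
    nth_rewrite 1 [hPdef]
    rw [Matrix.sub_mul, Matrix.sub_mul, Matrix.one_mul, hEP0, hPmP0, sub_zero, sub_zero]
  have hPt : Pᵀ = P := by
    rw [hPdef, transpose_sub, transpose_sub, transpose_one, hEt, p2]
  have hPc : ∀ x, a * x = x * a → P * x = x * P := by
    intro x hx
    rw [hPdef, Matrix.sub_mul, Matrix.sub_mul, Matrix.mul_sub, Matrix.mul_sub, Matrix.one_mul,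
      Matrix.mul_one, h.comm x hx, p4' x hx]
  have hat : ∀ x, a * x = x * a → aᵀ * x = x * aᵀ := by
    intro x hx
    exact (comm_inv ha' ha hx.symm).symm
  have hPb : (a - aᵀ) * P = a - aᵀ := by
    have q1 : (a - aᵀ) * E = 0 := by
      have q2 : aᵀ * E = E := by
        nth_rewrite 1 [← hE1]
        rw [← Matrix.mul_assoc, ha, Matrix.one_mul]
      rw [Matrix.sub_mul, hE1, q2, sub_self]
    have q3 : (a - aᵀ) * Pm = 0 := by
      have q2 : aᵀ * Pm = -Pm := by
        have q4 : Pm = -(a * Pm) := by rw [p3', neg_neg]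
        nth_rewrite 1 [q4]
        rw [Matrix.mul_neg, ← Matrix.mul_assoc, ha, Matrix.one_mul]
      rw [Matrix.sub_mul, p3', q2, sub_self]
    rw [hPdef, Matrix.mul_sub, Matrix.mul_sub, Matrix.mul_one, q1, q3, sub_zero, sub_zero]
  have hinj : ∀ v, P *ᵥ v = v → (a - aᵀ) *ᵥ v = 0 → v = 0 := by
    intro v hv h0
    rw [sub_mulVec, sub_eq_zero] at h0
    have q0 : a *ᵥ (a *ᵥ v) = v := by rw [h0, mulVec_mulVec, ha', one_mulVec]
    have q1 : E *ᵥ (v + a *ᵥ v) = v + a *ᵥ v := by
      apply hE2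
      rw [mulVec_add, q0, add_comm]
    have q2 : Pm *ᵥ (v - a *ᵥ v) = v - a *ᵥ v := by
      apply p5
      rw [neg_mulVec, mulVec_sub, q0, neg_sub]
    have q3 : P *ᵥ (v + a *ᵥ v) = 0 := by
      rw [← q1, mulVec_mulVec, show P * E = 0 by rw [hPc E hEa.symm, hEP0], zero_mulVec]
    have q4 : P *ᵥ (v - a *ᵥ v) = 0 := by
      rw [← q2, mulVec_mulVec, show P * Pm = 0 by rw [hPc Pm (p4' a rfl).symm, hPmP0], zero_mulVec]
    have q5 : (2 : k) • v = 0 := by
      have q6 : (2 : k) • v = (v + a *ᵥ v) + (v - a *ᵥ v) := by rw [two_smul]; abel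
      have q7 : P *ᵥ ((2 : k) • v) = (2 : k) • v := by rw [mulVec_smul, hv]
      rw [← q7, q6, mulVec_add, q3, q4, add_zero]
    exact (smul_eq_zero.mp q5).resolve_left two_ne_zero
  -- the three parts
  obtain ⟨x, hxdef⟩ : ∃ x, x = isoHom 1 (rho n k g) := ⟨_, rfl⟩
  rw [← hxdef] at hg ⊢
  have hgc := rho_cov g
  rw [← hxdef] at hgc
  have hx : xᵀ * x = 1 := hgc.orth
  have hEx : E * x = x * E := h.comm x hg
  have hPmx : Pm * x = x * Pm := p4' x hg
  have hPx : P * x = x * P := hPc x hg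
  obtain ⟨J, j1, j2, j3, j4, j5⟩ := exists_half a P hPP hPt hPc hat hPb hinj
  obtain ⟨s, s1, s2, s3⟩ := exists_sqrt a P J (x * P + (1 - P)) hPP hPt hat hPc j1 j2 j3 j4 j5
    (part_orth hx hPP hPt hPx) (part_comm (hPc a rfl).symm hg) (part_one hPP)
  have hEQV : ST_EQV k := st_EQV k
  have hGENS : ST_GENS k := Pool.Agent.Helper51.CG.st_GENS k
  obtain ⟨l1, hl1, hx1⟩ := Pool.Agent.Helper96.SPN.proj_refl hEQV hGENS h.idem hEt
    (part_orth hx h.idem hEt hEx) (part_comm rfl hEx).symm (part_one h.idem)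
  obtain ⟨lm, hlm, hxm⟩ := Pool.Agent.Helper96.SPN.proj_refl hEQV hGENS p1 p2
    (part_orth hx p1 p2 hPmx) (part_comm rfl hPmx).symm (part_one p1)
  have hdec : (x * E + (1 - E)) * ((x * Pm + (1 - Pm)) * (s * s)) = x := by
    have r1 : (x * E + (1 - E)) * (x * Pm + (1 - Pm)) = x * (1 - P) + P := by
      have t1 : x * E * (x * Pm) = 0 := by
        calc x * E * (x * Pm) = x * (E * x) * Pm := by simp only [Matrix.mul_assoc]
          _ = x * x * (E * Pm) := by rw [hEx]; simp only [Matrix.mul_assoc]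
          _ = 0 := by rw [hEP, Matrix.mul_zero]
      have t2 : x * E * (1 - Pm) = x * E := by
        rw [Matrix.mul_sub, Matrix.mul_one, Matrix.mul_assoc, hEP, Matrix.mul_zero, sub_zero]
      have t3 : (1 - E) * (x * Pm) = x * Pm := by
        rw [← hPmx, ← Matrix.mul_assoc, Matrix.sub_mul, Matrix.one_mul, hEP, sub_zero]
      have t4 : (1 - E) * (1 - Pm) = P := by
        rw [Matrix.sub_mul, Matrix.one_mul, Matrix.mul_sub, Matrix.mul_one, hEP, sub_zero, hPdef]
        abel
      have t5 : (1 : Matrix n n k) - P = E + Pm := by rw [hPdef]; abel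
      rw [Matrix.add_mul, Matrix.mul_add, Matrix.mul_add, t1, t2, t3, t4, t5, Matrix.mul_add,
        zero_add, add_assoc]
    have u0 : P * (1 - P) = 0 := by rw [Matrix.mul_sub, Matrix.mul_one, hPP, sub_self]
    have u1 : (1 - P) * (1 - P) = 1 - P := by
      rw [Matrix.sub_mul, Matrix.one_mul, u0, sub_zero]
    have u2 : (1 - P) * (x * P) = 0 := by
      rw [← hPx, ← Matrix.mul_assoc, Matrix.sub_mul, Matrix.one_mul, hPP, sub_self,
        Matrix.zero_mul]
    have u3 : P * (x * P) = x * P := by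
      rw [← hPx, ← Matrix.mul_assoc, hPP]
    rw [← Matrix.mul_assoc, r1, s2, Matrix.add_mul, Matrix.mul_add, Matrix.mul_add,
      Matrix.mul_assoc, Matrix.mul_assoc, u0, u1, u2, u3, Matrix.mul_zero, zero_add, add_zero,
      ← Matrix.mul_add, sub_add_cancel, Matrix.mul_one]
  -- lifts
  have hc1 := cov_list l1 fun v hv => (hl1 v hv).2
  have hcm := cov_list lm fun v hv => (hlm v hv).2
  obtain ⟨ys, i, hys, hcs⟩ := pin_lift s s1
  have hY := hc1.mul (hcm.mul (hcs.mul hcs))
  rw [← hx1, ← hxm, hdec] at hY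
  obtain ⟨-, c, hc⟩ := hY.unique hgc
  -- the map on the lifts
  have hm1 : mapA a ha (l1.map fun v => ι (Qn n k) v).prod
      = (l1.map fun v => ι (Qn n k) v).prod := by
    have w1 := mapA_list a ha 1 l1 (by
      intro v hv
      have w2 := (hl1 v hv).1
      rw [one_smul, ← w2, mulVec_mulVec, hE1])
    rw [w1, one_pow, one_smul]
  have hmm : mapA a ha (lm.map fun v => ι (Qn n k) v).prod
      = (-1 : k) ^ lm.length • (lm.map fun v => ι (Qn n k) v).prod := by
    refine mapA_list a ha (-1) lm ?_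
    intro v hv
    have w2 := (hlm v hv).1
    rw [neg_smul, one_smul]
    nth_rewrite 1 [← w2]
    rw [mulVec_mulVec, p3', neg_mulVec, w2]
  have hms : mapA a ha (ys * ys) = ys * ys := by
    have w1 := hcs.mapA a ha ha'
    have w2 : a * s * aᵀ = s := by rw [s3, Matrix.mul_assoc, ha', Matrix.mul_one]
    rw [w2] at w1
    obtain ⟨-, c', hc'⟩ := hcs.unique w1
    have w4 : mapA a ha ys * mapA a ha (star ys) = 1 := by rw [← map_mul, hcs.mul_inv, map_one]
    rw [mapA_star, hc', CliffordAlgebra.star_smul, smul_mul_smul_comm, hcs.mul_inv] at w4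
    have w3 : c' * c' = 1 := by
      apply algebraMap_inj (Qn n k)
      rw [Algebra.algebraMap_eq_smul_one, w4, map_one]
    rw [map_mul, hc', smul_mul_smul_comm, w3, one_smul]
  have hdet : (x * E + (1 - E)).det = (-1 : k) ^ lm.length := by
    have w1 : (x * E + (1 - E)).det * ((x * Pm + (1 - Pm)).det * (s * s).det) = 1 := by
      rw [← det_mul, ← det_mul, hdec, hgc.det, sg_zero]
    have w2 : (s * s).det = 1 := by rw [det_mul, hcs.det, sg_sq]
    have w3 : (x * Pm + (1 - Pm)).det = (-1 : k) ^ lm.length := by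
      rw [hxm, Pool.Agent.Helper96.SPN.det_rf_prod fun v hv => (hlm v hv).2]
    have w4 : ((-1 : k) ^ lm.length) * ((-1 : k) ^ lm.length) = 1 := by
      rw [← mul_pow, neg_mul_neg, one_mul, one_pow]
    rw [w2, w3, mul_one] at w1
    calc (x * E + (1 - E)).det
        = (x * E + (1 - E)).det * (((-1 : k) ^ lm.length) * ((-1 : k) ^ lm.length)) := by
          rw [w4, mul_one]
      _ = (-1 : k) ^ lm.length := by rw [← mul_assoc, w1, one_mul]
  rw [hdet, hc, map_smul, map_mul, map_mul, hm1, hmm, hms, smul_mul_assoc, mul_smul_comm,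
    smul_comm]

/-- FIX: the fixed points of `T_a`, `a` of finite order. -/
theorem fix_iff (a E : Matrix n n k) (ha : aᵀ * a = 1) (ha' : a * aᵀ = 1) (h : Proj a E)
    (N : ℕ) (hN : 0 < N) (haN : a ^ N = 1) (hE1 : a * E = E)
    (hE2 : ∀ v : n → k, a *ᵥ v = v → E *ᵥ v = v) (g : SpinG n k) :
    Ta a ha ha' g = g ↔ rho n k g ∈ cm0 (isoHom 1) a E h := by
  constructor
  · intro hT
    have h1 := rho_Ta a ha ha' g
    rw [hT] at h1
    have h2 : a * isoHom 1 (rho n k g) = isoHom 1 (rho n k g) * a := by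
      nth_rewrite 2 [h1]
      rw [Matrix.mul_assoc, ha, Matrix.mul_one]
    refine ⟨h2, ?_⟩
    have h3 := Ta_scalar a E ha ha' h N hN haN hE1 hE2 g h2
    have h4 : mapA a ha (g : Cln n k) = g := congrArg Subtype.val hT
    rw [h4] at h3
    have h5 : (g : Cln n k) * star (g : Cln n k) = 1 := spinGroup.mul_star_self_of_mem g.2
    have h6 : (1 : k) • (1 : Cln n k)
        = (isoHom 1 (rho n k g) * E + (1 - E)).det • (1 : Cln n k) := by
      rw [one_smul, ← h5, ← smul_mul_assoc, ← h3]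
    rw [← Algebra.algebraMap_eq_smul_one, ← Algebra.algebraMap_eq_smul_one] at h6
    exact (algebraMap_inj (Qn n k) h6).symm
  · rintro ⟨h2, h3⟩
    apply spin_coe_inj
    rw [Ta_coe, Ta_scalar a E ha ha' h N hN haN hE1 hE2 g h2]
    have h4 : (isoHom 1 (rho n k g) * E + (1 - E)).det = 1 := h3
    rw [h4, one_smul]

end fix

end Pool.Agent.Helper67.SPN
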