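import Pool.Agent.Helper96.SPN.Sqrt
import Pool.Agent.Helper97.SPN.Stmts

/-!
# Orthogonal square roots commuting with an orthogonal matrix of finite order
-/

namespace Pool.Agent.Helper67.SPN

open Matrix

section half

variable {k : Type*} [Field k] {n : Type} [Fintype n] [DecidableEq n]

lemma comm_inv {x r r' : Matrix n n k} (h1 : r * r' = 1) (h2 : r' * r = 1) (h : x * r = r * x) :
    x * r' = r' * x := by
  calc x * r' = r' * (r * x) * r' := by rw [← Matrix.mul_assoc, h2, Matrix.one_mul]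
    _ = r' * x * (r * r') := by rw [← h]; simp only [Matrix.mul_assoc]
    _ = r' * x := by rw [h1, Matrix.mul_one]

lemma comm_aeval {x A : Matrix n n k} (h : x * A = A * x) (q : Polynomial k) :
    x * Polynomial.aeval A q = Polynomial.aeval A q * x := by
  have h1 : Commute x A := h
  have h2 : Commute x (Polynomial.aeval A q) := by
    induction q using Polynomial.induction_on' with
    | add p q hp hq => rw [map_add]; exact hp.add_right hq
    | monomial m a =>
      rw [Polynomial.aeval_monomial]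
      exact (Algebra.commute_algebraMap_right a x).mul_right (h1.pow_right m)
  exact h2

lemma transpose_aeval (A : Matrix n n k) (q : Polynomial k) :
    (Polynomial.aeval A q)ᵀ = Polynomial.aeval Aᵀ q := by
  induction q using Polynomial.induction_on' with
  | add p q hp hq => rw [map_add, map_add, transpose_add, hp, hq]
  | monomial m a =>
    rw [Polynomial.aeval_monomial, Polynomial.aeval_monomial, transpose_mul, transpose_pow,
      Matrix.algebraMap_eq_diagonal, diagonal_transpose]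
    exact (Algebra.commutes a (Aᵀ ^ m)).symm ▸ rfl

/-- A skew element of the bicommutant with square a given symmetric idempotent. -/
lemma exists_half [IsAlgClosed k] [CharZero k] (a P : Matrix n n k) (hP : P * P = P)
    (hPt : Pᵀ = P) (hPc : ∀ x, a * x = x * a → P * x = x * P)
    (hat : ∀ x, a * x = x * a → aᵀ * x = x * aᵀ)
    (hPb : (a - aᵀ) * P = a - aᵀ)
    (hinj : ∀ v, P *ᵥ v = v → (a - aᵀ) *ᵥ v = 0 → v = 0) :
    ∃ J : Matrix n n k, J * J = P ∧ Jᵀ = -J ∧ (∀ x, a * x = x * a → J * x = x * J) ∧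
      J * P = J ∧ P * J = J := by
  have hbc : ∀ x, a * x = x * a → (a - aᵀ) * x = x * (a - aᵀ) := by
    intro x hx
    rw [Matrix.sub_mul, Matrix.mul_sub, hx, hat x hx]
  have hba : a * (a - aᵀ) = (a - aᵀ) * a := by
    exact (hbc a rfl).symm
  have hPa : a * P = P * a := (hPc a rfl).symm
  have hPb' : P * (a - aᵀ) = a - aᵀ := by rw [hPc _ hba, hPb]
  have hbt : (a - aᵀ)ᵀ = -(a - aᵀ) := by
    rw [transpose_sub, transpose_transpose, neg_sub]
  obtain ⟨b, hb⟩ : ∃ b, b = a - aᵀ := ⟨_, rfl⟩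
  rw [← hb] at hba hPb hPb' hbt
  simp only [← hb] at hbc hinj
  clear hb
  let B : Matrix n n k := b * b + (1 - P)
  have hBt : Bᵀ = B := by
    show (b * b + (1 - P))ᵀ = _
    rw [transpose_add, transpose_mul, hbt, neg_mul_neg, transpose_sub, transpose_one, hPt]
  have hBP : B * P = b * b := by
    show (b * b + (1 - P)) * P = _
    rw [Matrix.add_mul, Matrix.mul_assoc, hPb, Matrix.sub_mul, Matrix.one_mul, hP, sub_self,
      add_zero]
  have hBc : ∀ x, a * x = x * a → B * x = x * B := by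
    intro x hx
    show (b * b + (1 - P)) * x = x * (b * b + (1 - P))
    rw [Matrix.add_mul, Matrix.mul_add, Matrix.mul_assoc, hbc x hx, ← Matrix.mul_assoc, hbc x hx,
      Matrix.mul_assoc, Matrix.sub_mul, Matrix.mul_sub, hPc x hx, Matrix.one_mul, Matrix.mul_one]
  have hdet : B.det ≠ 0 := by
    intro h0
    obtain ⟨v, hv, hv0⟩ := Matrix.exists_mulVec_eq_zero_iff.mpr h0
    apply hv
    -- the component in the kernel of `P`
    have h1 : P *ᵥ v = v := by
      have h2 : (1 - P) * B = 1 - P := by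
        show (1 - P) * (b * b + (1 - P)) = _
        have h3 : (1 - P) * b = 0 := by
          rw [Matrix.sub_mul, Matrix.one_mul, hPb', sub_self]
        rw [Matrix.mul_add, ← Matrix.mul_assoc, h3, Matrix.zero_mul, zero_add, Matrix.sub_mul,
          Matrix.one_mul, Matrix.mul_sub, Matrix.mul_one, hP, sub_self, sub_zero]
      have h4 : (1 - P) *ᵥ v = 0 := by rw [← h2, ← mulVec_mulVec, hv0, mulVec_zero]
      rw [sub_mulVec, one_mulVec, sub_eq_zero] at h4
      exact h4.symm
    have h5 : b *ᵥ (b *ᵥ v) = 0 := by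
      have h6 : B *ᵥ v = b *ᵥ (b *ᵥ v) + (1 - P) *ᵥ v := by
        show (b * b + (1 - P)) *ᵥ v = _
        rw [add_mulVec, mulVec_mulVec]
      rw [hv0, sub_mulVec, one_mulVec, h1, sub_self, add_zero] at h6
      exact h6.symm
    have h7 : b *ᵥ v = 0 := by
      apply hinj
      · rw [mulVec_mulVec, hPb']
      · exact h5
    exact hinj v h1 h7
  obtain ⟨q, hq⟩ := Pool.Agent.Helper96.SPN.sqrt_poly B hdet
  obtain ⟨r, hr⟩ : ∃ r : Matrix n n k, r = Polynomial.aeval B q := ⟨_, rfl⟩
  rw [← hr] at hq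
  have hrr : r * r = B := by rw [← pow_two]; exact hq
  have hrt : rᵀ = r := by rw [hr, transpose_aeval, hBt]
  have hrc : ∀ x, a * x = x * a → x * r = r * x := fun x hx => by
    rw [hr]
    exact comm_aeval (hBc x hx).symm q
  have hrdet : IsUnit r.det := by
    have h1 : r.det * r.det = B.det := by rw [← det_mul, hrr]
    apply isUnit_iff_ne_zero.mpr
    intro h0
    apply hdet
    rw [← h1, h0, zero_mul]
  obtain ⟨r', hr1, hr2, hrit⟩ : ∃ r' : Matrix n n k, r * r' = 1 ∧ r' * r = 1 ∧ r'ᵀ = r' := by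
    refine ⟨r⁻¹, Matrix.mul_nonsing_inv r hrdet, Matrix.nonsing_inv_mul r hrdet, ?_⟩
    rw [Matrix.transpose_nonsing_inv, hrt]
  have hrc' : ∀ x, a * x = x * a → x * r' = r' * x := fun x hx => comm_inv hr1 hr2 (hrc x hx)
  have hbr : b * r' = r' * b := hrc' _ hba
  refine ⟨b * r', ?_, ?_, ?_, ?_, ?_⟩
  · have hB1 : r' * r' * B = 1 := by
      rw [← hrr]
      calc r' * r' * (r * r) = r' * (r' * r) * r := by simp only [Matrix.mul_assoc]
        _ = 1 := by rw [hr2, Matrix.mul_one, hr2]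
    have hB2 : B * r' = r' * B := by
      rw [← hrr]
      calc r * r * r' = r := by rw [Matrix.mul_assoc, hr1, Matrix.mul_one]
        _ = r' * (r * r) := by rw [← Matrix.mul_assoc, hr2, Matrix.one_mul]
    calc b * r' * (b * r') = b * r' * (r' * b) := by rw [hbr]
      _ = b * r' * r' * b := by simp only [Matrix.mul_assoc]
      _ = r' * b * r' * b := by rw [hbr]
      _ = r' * (b * r') * b := by simp only [Matrix.mul_assoc]
      _ = r' * r' * (b * b) := by rw [hbr]; simp only [Matrix.mul_assoc]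
      _ = r' * r' * B * P := by rw [← hBP]; simp only [Matrix.mul_assoc]
      _ = P := by rw [hB1, Matrix.one_mul]
  · rw [transpose_mul, hrit, hbt, Matrix.mul_neg, ← hbr]
  · intro x hx
    rw [Matrix.mul_assoc, ← hrc' x hx, ← Matrix.mul_assoc, hbc x hx, Matrix.mul_assoc]
  · rw [Matrix.mul_assoc, ← hrc' P hPa, ← Matrix.mul_assoc, hPb]
  · rw [← Matrix.mul_assoc, hPb']

/-- Orthogonal square roots. -/
lemma exists_sqrt [IsAlgClosed k] [CharZero k] (a P J h : Matrix n n k) (hP : P * P = P)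
    (hPt : Pᵀ = P) (hat : ∀ x, a * x = x * a → aᵀ * x = x * aᵀ)
    (hPc : ∀ x, a * x = x * a → P * x = x * P)
    (hJ : J * J = P) (hJt : Jᵀ = -J) (hJc : ∀ x, a * x = x * a → J * x = x * J)
    (hJP : J * P = J) (hPJ : P * J = J)
    (hh : hᵀ * h = 1) (hah : a * h = h * a) (hh1 : h * (1 - P) = 1 - P) :
    ∃ s : Matrix n n k, sᵀ * s = 1 ∧ s * s = h ∧ a * s = s * a := by
  have hdet : h.det ≠ 0 := by
    intro h0
    have h1 := congrArg det hh
    rw [det_mul, h0, mul_zero, det_one] at h1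
    exact zero_ne_one h1
  obtain ⟨q, hq⟩ := Pool.Agent.Helper96.SPN.sqrt_poly h hdet
  set r : Matrix n n k := Polynomial.aeval h q with hr
  have hrr : r * r = h := by rw [← pow_two]; exact hq
  have har : a * r = r * a := comm_aeval hah q
  have hrdet : IsUnit r.det := by
    have h1 : r.det * r.det = h.det := by rw [← det_mul, hrr]
    apply isUnit_iff_ne_zero.mpr
    intro h0
    apply hdet
    rw [← h1, h0, zero_mul]
  have hr1 : r * r⁻¹ = 1 := Matrix.mul_nonsing_inv r hrdet
  have hr2 : r⁻¹ * r = 1 := Matrix.nonsing_inv_mul r hrdet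
  -- the transposes
  set t : Matrix n n k := (r⁻¹)ᵀ with ht
  have ht1 : rᵀ * t = 1 := by rw [ht, ← transpose_mul, hr2, transpose_one]
  have ht2 : t * rᵀ = 1 := by rw [ht, ← transpose_mul, hr1, transpose_one]
  have htt : t * t = h := by
    have h1 : (r⁻¹ * r⁻¹) * h = 1 := by
      rw [← hrr]
      calc r⁻¹ * r⁻¹ * (r * r) = r⁻¹ * (r⁻¹ * r) * r := by simp only [Matrix.mul_assoc]
        _ = 1 := by rw [hr2, Matrix.mul_one, hr2]
    have h2 : hᵀ * (t * t) = 1 := by
      rw [ht, ← transpose_mul, ← transpose_mul, h1, transpose_one]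
    have h3 : h * hᵀ = 1 := mul_eq_one_comm.mp hh
    calc t * t = h * (hᵀ * (t * t)) := by rw [← Matrix.mul_assoc, h3, Matrix.one_mul]
      _ = h := by rw [h2, Matrix.mul_one]
  have har' : a * r⁻¹ = r⁻¹ * a := comm_inv hr1 hr2 har
  have hat' : a * t = t * a := by
    have h1 : aᵀ * r⁻¹ = r⁻¹ * aᵀ := hat _ har'
    have h2 := congrArg transpose h1
    rw [transpose_mul, transpose_mul, transpose_transpose] at h2
    rw [ht]
    exact h2.symm
  have hPr : P * r = r * P := hPc r har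
  have hPT : P * t = t * P := hPc t hat'
  have hJr : J * r = r * J := hJc r har
  have hJT : J * t = t * J := hJc t hat'
  have haP : a * P = P * a := (hPc a rfl).symm
  have haJ : a * J = J * a := (hJc a rfl).symm
  -- the two halves
  let Pp : Matrix n n k := (2⁻¹ : k) • (P + J)
  let Pm : Matrix n n k := (2⁻¹ : k) • (P - J)
  have h22 : (2⁻¹ : k) * 2⁻¹ * 2 = 2⁻¹ := by
    rw [mul_assoc, inv_mul_cancel₀ two_ne_zero, mul_one]
  have hpp : Pp * Pp = Pp := by
    show ((2⁻¹ : k) • (P + J)) * ((2⁻¹ : k) • (P + J)) = (2⁻¹ : k) • (P + J)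
    rw [Matrix.smul_mul, Matrix.mul_smul, smul_smul, Matrix.add_mul, Matrix.mul_add,
      Matrix.mul_add, hP, hPJ, hJP, hJ]
    have h1 : P + J + (J + P) = (2 : k) • (P + J) := by rw [two_smul]; abel
    rw [h1, smul_smul, h22]
  have hmm : Pm * Pm = Pm := by
    show ((2⁻¹ : k) • (P - J)) * ((2⁻¹ : k) • (P - J)) = (2⁻¹ : k) • (P - J)
    rw [Matrix.smul_mul, Matrix.mul_smul, smul_smul, Matrix.sub_mul, Matrix.mul_sub,
      Matrix.mul_sub, hP, hPJ, hJP, hJ]
    have h1 : P - J - (J - P) = (2 : k) • (P - J) := by rw [two_smul]; abel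
    rw [h1, smul_smul, h22]
  have hpm : Pp * Pm = 0 := by
    show ((2⁻¹ : k) • (P + J)) * ((2⁻¹ : k) • (P - J)) = 0
    rw [Matrix.smul_mul, Matrix.mul_smul, smul_smul, Matrix.add_mul, Matrix.mul_sub,
      Matrix.mul_sub, hP, hPJ, hJP, hJ]
    have h1 : P - J + (J - P) = 0 := by abel
    rw [h1, smul_zero]
  have hmp : Pm * Pp = 0 := by
    show ((2⁻¹ : k) • (P - J)) * ((2⁻¹ : k) • (P + J)) = 0
    rw [Matrix.smul_mul, Matrix.mul_smul, smul_smul, Matrix.sub_mul, Matrix.mul_add,
      Matrix.mul_add, hP, hPJ, hJP, hJ]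
    have h1 : P + J - (J + P) = 0 := by abel
    rw [h1, smul_zero]
  have hsum : Pp + Pm = P := by
    show (2⁻¹ : k) • (P + J) + (2⁻¹ : k) • (P - J) = P
    rw [← smul_add]
    have h1 : P + J + (P - J) = (2 : k) • P := by rw [two_smul]; abel
    rw [h1, smul_smul, inv_mul_cancel₀ two_ne_zero, one_smul]
  have hppt : Ppᵀ = Pm := by
    show ((2⁻¹ : k) • (P + J))ᵀ = (2⁻¹ : k) • (P - J)
    rw [transpose_smul, transpose_add, hPt, hJt, ← sub_eq_add_neg]
  have hpmt : Pmᵀ = Pp := by rw [← hppt, transpose_transpose]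
  have cpp : ∀ x : Matrix n n k, P * x = x * P → J * x = x * J → Pp * x = x * Pp := by
    intro x h1 h2
    show ((2⁻¹ : k) • (P + J)) * x = x * ((2⁻¹ : k) • (P + J))
    rw [Matrix.smul_mul, Matrix.mul_smul, Matrix.add_mul, Matrix.mul_add, h1, h2]
  have cpm : ∀ x : Matrix n n k, P * x = x * P → J * x = x * J → Pm * x = x * Pm := by
    intro x h1 h2
    show ((2⁻¹ : k) • (P - J)) * x = x * ((2⁻¹ : k) • (P - J))
    rw [Matrix.smul_mul, Matrix.mul_smul, Matrix.sub_mul, Matrix.mul_sub, h1, h2]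
  have hp0 : Pp * (1 - P) = 0 := by
    rw [← hsum, Matrix.mul_sub, Matrix.mul_one, Matrix.mul_add, hpp, hpm, add_zero, sub_self]
  have hm0 : Pm * (1 - P) = 0 := by
    rw [← hsum, Matrix.mul_sub, Matrix.mul_one, Matrix.mul_add, hmp, hmm, zero_add, sub_self]
  have h0p : (1 - P) * Pp = 0 := by
    rw [← hsum, Matrix.sub_mul, Matrix.one_mul, Matrix.add_mul, hpp, hmp, add_zero, sub_self]
  have h0m : (1 - P) * Pm = 0 := by
    rw [← hsum, Matrix.sub_mul, Matrix.one_mul, Matrix.add_mul, hpm, hmm, zero_add, sub_self]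
  have h00 : (1 - P) * (1 - P) = 1 - P := by
    rw [Matrix.sub_mul, Matrix.one_mul, Matrix.mul_sub, Matrix.mul_one, hP, sub_self, sub_zero]
  have cr1 := cpp r hPr hJr
  have cr2 := cpm r hPr hJr
  have ct1 := cpp t hPT hJT
  have ct2 := cpm t hPT hJT
  have crt : rᵀ * Pm = Pm * rᵀ := by
    have h1 := congrArg transpose cr1
    rw [transpose_mul, transpose_mul, hppt] at h1
    exact h1
  refine ⟨r * Pp + t * Pm + (1 - P), ?_, ?_, ?_⟩
  · have e1 : (r * Pp + t * Pm + (1 - P))ᵀ = Pm * rᵀ + Pp * r⁻¹ + (1 - P) := by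
      rw [transpose_add, transpose_add, transpose_mul, transpose_mul, hppt, hpmt, transpose_sub,
        transpose_one, hPt, ht, transpose_transpose]
    have cri : Pp * r⁻¹ = r⁻¹ * Pp := comm_inv hr1 hr2 cr1
    rw [e1]
    have f1 : Pm * rᵀ * (r * Pp) = 0 := by
      calc Pm * rᵀ * (r * Pp) = rᵀ * (Pm * r) * Pp := by
            rw [← crt]; simp only [Matrix.mul_assoc]
        _ = rᵀ * r * (Pm * Pp) := by rw [cr2]; simp only [Matrix.mul_assoc]
        _ = 0 := by rw [hmp, Matrix.mul_zero]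
    have f2 : Pm * rᵀ * (t * Pm) = Pm := by
      calc Pm * rᵀ * (t * Pm) = Pm * (rᵀ * t) * Pm := by simp only [Matrix.mul_assoc]
        _ = Pm := by rw [ht1, Matrix.mul_one, hmm]
    have f3 : Pm * rᵀ * (1 - P) = 0 := by
      rw [← crt, Matrix.mul_assoc, hm0, Matrix.mul_zero]
    have f4 : Pp * r⁻¹ * (r * Pp) = Pp := by
      calc Pp * r⁻¹ * (r * Pp) = Pp * (r⁻¹ * r) * Pp := by simp only [Matrix.mul_assoc]
        _ = Pp := by rw [hr2, Matrix.mul_one, hpp]
    have f5 : Pp * r⁻¹ * (t * Pm) = 0 := by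
      calc Pp * r⁻¹ * (t * Pm) = r⁻¹ * (Pp * t) * Pm := by
            rw [cri]; simp only [Matrix.mul_assoc]
        _ = r⁻¹ * t * (Pp * Pm) := by rw [ct1]; simp only [Matrix.mul_assoc]
        _ = 0 := by rw [hpm, Matrix.mul_zero]
    have f6 : Pp * r⁻¹ * (1 - P) = 0 := by
      rw [cri, Matrix.mul_assoc, hp0, Matrix.mul_zero]
    have f7 : (1 - P) * (r * Pp) = 0 := by
      rw [← cr1, ← Matrix.mul_assoc, h0p, Matrix.zero_mul]
    have f8 : (1 - P) * (t * Pm) = 0 := by
      rw [← ct2, ← Matrix.mul_assoc, h0m, Matrix.zero_mul]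
    rw [Matrix.add_mul, Matrix.add_mul, Matrix.mul_add, Matrix.mul_add, Matrix.mul_add,
      Matrix.mul_add, Matrix.mul_add, Matrix.mul_add, f1, f2, f3, f4, f5, f6, f7, f8, h00]
    rw [← hsum]
    abel
  · have g1 : r * Pp * (r * Pp) = h * Pp := by
      calc r * Pp * (r * Pp) = r * (Pp * r) * Pp := by simp only [Matrix.mul_assoc]
        _ = (r * r) * (Pp * Pp) := by rw [cr1]; simp only [Matrix.mul_assoc]
        _ = h * Pp := by rw [hrr, hpp]
    have g2 : r * Pp * (t * Pm) = 0 := by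
      calc r * Pp * (t * Pm) = r * (Pp * t) * Pm := by simp only [Matrix.mul_assoc]
        _ = r * t * (Pp * Pm) := by rw [ct1]; simp only [Matrix.mul_assoc]
        _ = 0 := by rw [hpm, Matrix.mul_zero]
    have g3 : r * Pp * (1 - P) = 0 := by rw [Matrix.mul_assoc, hp0, Matrix.mul_zero]
    have g4 : t * Pm * (r * Pp) = 0 := by
      calc t * Pm * (r * Pp) = t * (Pm * r) * Pp := by simp only [Matrix.mul_assoc]
        _ = t * r * (Pm * Pp) := by rw [cr2]; simp only [Matrix.mul_assoc]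
        _ = 0 := by rw [hmp, Matrix.mul_zero]
    have g5 : t * Pm * (t * Pm) = h * Pm := by
      calc t * Pm * (t * Pm) = t * (Pm * t) * Pm := by simp only [Matrix.mul_assoc]
        _ = (t * t) * (Pm * Pm) := by rw [ct2]; simp only [Matrix.mul_assoc]
        _ = h * Pm := by rw [htt, hmm]
    have g6 : t * Pm * (1 - P) = 0 := by rw [Matrix.mul_assoc, hm0, Matrix.mul_zero]
    have f7 : (1 - P) * (r * Pp) = 0 := by
      rw [← cr1, ← Matrix.mul_assoc, h0p, Matrix.zero_mul]
    have f8 : (1 - P) * (t * Pm) = 0 := by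
      rw [← ct2, ← Matrix.mul_assoc, h0m, Matrix.zero_mul]
    rw [Matrix.add_mul, Matrix.add_mul, Matrix.mul_add, Matrix.mul_add, Matrix.mul_add,
      Matrix.mul_add, Matrix.mul_add, Matrix.mul_add, g1, g2, g3, g4, g5, g6, f7, f8, h00]
    have e2 : h = h * Pp + h * Pm + (1 - P) := by
      rw [← Matrix.mul_add, hsum, ← hh1, ← Matrix.mul_add, add_sub_cancel, Matrix.mul_one]
    rw [add_zero, add_zero, zero_add, add_zero, zero_add, zero_add]
    exact e2.symm
  · rw [Matrix.mul_add, Matrix.mul_add, Matrix.add_mul, Matrix.add_mul]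
    have c1 : a * (r * Pp) = r * Pp * a := by
      rw [← Matrix.mul_assoc, har, Matrix.mul_assoc, ← cpp a haP.symm haJ.symm, Matrix.mul_assoc]
    have c2 : a * (t * Pm) = t * Pm * a := by
      rw [← Matrix.mul_assoc, hat', Matrix.mul_assoc, ← cpm a haP.symm haJ.symm, Matrix.mul_assoc]
    have c3 : a * (1 - P) = (1 - P) * a := by
      rw [Matrix.mul_sub, Matrix.sub_mul, Matrix.mul_one, Matrix.one_mul, haP]
    rw [c1, c2, c3]

end half

end Pool.Agent.Helper67.SPN
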