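import Pool.Agent.Helper15.CG.LEV
import Pool.Agent.Helper97.SPN.Stmts

/-!
# Levi reduction for the oriented charts (row OL)
-/

namespace Pool.Agent.Helper97.SPN

open MvPolynomial Matrix Pool.Agent.Helper14.RG Pool.Agent.Helper97.CG

universe u

section

variable {k : Type u} [Field k] {e : ℕ} {w : Type} [Fintype w] [DecidableEq w]

lemma dg_one : (dg 1 1 1 : Matrix (Fin e ⊕ (Fin e ⊕ w)) (Fin e ⊕ (Fin e ⊕ w)) k) = 1 := by
  rw [dg, mk3_one]

lemma dg_add (a1 a2 c1 c2 : Matrix (Fin e) (Fin e) k) (a3 c3 : Matrix w w k) :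
    dg a1 a2 a3 + dg c1 c2 c3 = dg (a1 + c1) (a2 + c2) (a3 + c3) := by
  ext i j
  rcases i with i | i | i <;> rcases j with j | j | j <;> simp [dg, mk3]

lemma dg_sub (a1 a2 c1 c2 : Matrix (Fin e) (Fin e) k) (a3 c3 : Matrix w w k) :
    dg a1 a2 a3 - dg c1 c2 c3 = dg (a1 - c1) (a2 - c2) (a3 - c3) := by
  ext i j
  rcases i with i | i | i <;> rcases j with j | j | j <;> simp [dg, mk3]

/-- the determinants on the image of the projector -/
lemma dg_det0 (h1 h2 : Matrix (Fin e) (Fin e) k) (h3 Ew : Matrix w w k) :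
    (dg h1 h2 h3 * dg 0 0 Ew + (1 - dg 0 0 Ew)).det = (h3 * Ew + (1 - Ew)).det := by
  rw [dg_mul_dg, ← dg_one, dg_sub, dg_add, det_dg]
  simp

lemma blk_det0 (h1 : Matrix (Fin e) (Fin e) k) (h3 Ew : Matrix w w k) :
    (fromBlocks h1 0 0 h3 * fromBlocks 0 0 0 Ew + (1 - fromBlocks 0 0 0 Ew)).det
      = (h3 * Ew + (1 - Ew)).det := by
  have e1 : fromBlocks h1 0 0 h3 * fromBlocks 0 0 0 Ew + (1 - fromBlocks 0 0 0 Ew)
      = fromBlocks 1 0 0 (h3 * Ew + (1 - Ew)) := by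
    rw [fromBlocks_multiply, ← fromBlocks_one, sub_eq_add_neg, fromBlocks_neg, fromBlocks_add,
      fromBlocks_add]
    simp [sub_eq_add_neg]
  rw [e1, det_fromBlocks_zero₂₁, det_one, one_mul]

end

/-- Levi reduction -/
theorem st_OL {k : Type u} [Field k] [IsAlgClosed k] [CharZero k] (hF : ST_LEVF k)
    (hC : ST_LEVC k) : ST_OL k := by
  intro e w _ _ Jw hJ sE sw Ew hsE hsw hblk h' h0 hL
  have hs : IsSg (1 : k) false := Or.inr ⟨rfl, rfl⟩
  obtain ⟨NL, hNL, hDL, ⟨ch⟩⟩ := hL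
  obtain ⟨q1, hq1, hq1'⟩ := exists_refine (A := mAlg (isoHom (LJ (Fin e) 1 Jw))) (q0 := qq)
    (f := fun g => ch.q0 (Psi hF hJ g)) qq_mem
    (comp_mem_RegU rfl (Psi hF hJ) (Psi_reg (q1 := qq) (fun g hg => hg) hF hJ) ch.q0_mem)
  have hq : ∀ g, q1 g ≠ 0 → (b11 (mt g)).det ≠ 0 := fun g hg => ((hq1' g).1 hg).1
  have hqL : ∀ g, q1 g ≠ 0 → ch.q0 (Psi hF hJ g) ≠ 0 := fun g hg => ((hq1' g).1 hg).2
  -- elements commuting with `s`
  have hB : ∀ h ∈ cm (isoHom (LJ (Fin e) 1 Jw)) (dg sE (sEᵀ)⁻¹ sw),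
      ∃ g : GL (Fin e) k × IsoG Jw, ∃ h2 : Matrix (Fin e) (Fin e) k,
      mt h = dg (glHom (Fin e) k g.1) h2 (isoHom Jw g.2) ∧
      h2 * (glHom (Fin e) k g.1)ᵀ = 1 ∧ (glHom (Fin e) k g.1).det ≠ 0 := fun h hh =>
    blk_of hJ h (hblk h hh)
  have hdom : ∀ P : MvPolynomial ((((w × Fin e) ⊕ KI e false) ⊕ ((w × Fin e) ⊕ KI e false)) ⊕ NL) k,
      P ≠ 0 → ∃ g, q1 g ≠ 0 ∧
        eval (Sum.elim (ub false Jw 1 (mt g)) (ch.t (Psi hF hJ g))) P ≠ 0 := by
    intro P hP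
    obtain ⟨z, hz⟩ := exists_special P hP
    obtain ⟨gL, hgL, hgL'⟩ := ch.dom _ hz
    obtain ⟨x, x1, x2, x3⟩ := exists_pt hF hC hs hJ z gL
    refine ⟨x, (hq1' x).2 ⟨x1, ?_⟩, ?_⟩
    · show ch.q0 (Psi hF hJ x) ≠ 0
      rw [x3]
      exact hgL
    · rw [x2, x3, ← eval_special]
      exact hgL'
  refine ⟨(((w × Fin e) ⊕ KI e false) ⊕ ((w × Fin e) ⊕ KI e false)) ⊕ NL, inferInstance, inferInstance,
    ⟨?_⟩⟩
  exact {
    hH := cm0_le _ _ _ _
    q0 := q1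
    q0_mem := hq1
    q0_ne := by
      obtain ⟨g, hg, _⟩ := hdom 1 one_ne_zero
      intro h0
      exact hg (congrFun h0 g)
    t := fun g => Sum.elim (ub false Jw 1 (mt g)) (ch.t (Psi hF hJ g))
    treg := by
      intro j
      rcases j with j | j
      · exact ub_reg hq j
      · exact comp_mem_RegU' rfl (Psi hF hJ) (Psi_reg hq hF hJ) hqL (ch.treg j)
    sep := by
      intro g g' hg hg' ht
      have hu : ub false Jw 1 (mt g) = ub false Jw 1 (mt g') := by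
        funext j
        exact congrFun ht (Sum.inl j)
      have hv : ch.t (Psi hF hJ g) = ch.t (Psi hF hJ g') := by
        funext j
        exact congrFun ht (Sum.inr j)
      obtain ⟨hL, hhL, hhL'⟩ := ch.sep _ _ (hqL g hg) (hqL g' hg') hv
      have h1 := coord_eq hF hs hJ g g' (hq g hg) (hq g' hg') hu hL hhL'
      have h2 : mt (g⁻¹ * g') = dg (glHom (Fin e) k hL.1) ((glHom (Fin e) k hL.1)ᵀ)⁻¹
          (isoHom Jw hL.2) := by
        rw [mt_mul, h1, ← Matrix.mul_assoc, ← mt_mul, inv_mul_cancel]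
        show (1 : Matrix _ _ k) * _ = _
        rw [Matrix.one_mul]
      refine ⟨g⁻¹ * g', ⟨?_, ?_⟩, (mul_inv_cancel_left g g').symm⟩
      · show dg sE (sEᵀ)⁻¹ sw * mt (g⁻¹ * g') = mt (g⁻¹ * g') * dg sE (sEᵀ)⁻¹ sw
        rw [h2]
        exact blk_cm hhL.1
      · show (mt (g⁻¹ * g') * dg 0 0 Ew + (1 - dg 0 0 Ew)).det = 1
        have h3 : (fromBlocks (glHom (Fin e) k hL.1) 0 0 (isoHom Jw hL.2) * fromBlocks 0 0 0 Ew +
          (1 - fromBlocks 0 0 0 Ew)).det = 1 := hhL.2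
        rw [blk_det0] at h3
        rw [h2, dg_det0, h3]
    dom := hdom
    inv := by
      intro h hh g hg j
      obtain ⟨gL, h2, e1, e2, e3⟩ := hB h hh.1
      obtain ⟨p1, p2⟩ := Psi_mul hF hJ g h (hq g hg) gL h2 e1 e3
      have hc : gL ∈ cm0 (pHom (glHom (Fin e) k) (isoHom Jw)) (fromBlocks sE 0 0 sw)
          (fromBlocks 0 0 0 Ew) h' := by
        have hh' : dg sE (sEᵀ)⁻¹ sw * mt h = mt h * dg sE (sEᵀ)⁻¹ sw := hh.1
        have hh2 : (mt h * dg 0 0 Ew + (1 - dg 0 0 Ew)).det = 1 := hh.2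
        rw [e1] at hh' hh2
        refine ⟨cm_blk hh', ?_⟩
        show (fromBlocks (glHom (Fin e) k gL.1) 0 0 (isoHom Jw gL.2) * fromBlocks 0 0 0 Ew +
          (1 - fromBlocks 0 0 0 Ew)).det = 1
        rw [blk_det0, ← hh2, dg_det0]
      rcases j with j | j
      · show ub false Jw 1 (mt (g * h)) j = ub false Jw 1 (mt g) j
        rw [mt_mul, e1, ub_mul_dg _ _ e3 e2]
      · show ch.t (Psi hF hJ (g * h)) j = ch.t (Psi hF hJ g) j
        rw [p2]
        exact ch.inv gL hc _ (hqL g hg) j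
    equiv := by
      intro h hh
      obtain ⟨gL, h2, e1, e2, e3⟩ := hB h hh
      have hc : gL ∈ cm (pHom (glHom (Fin e) k) (isoHom Jw)) (fromBlocks sE 0 0 sw) := by
        have hh2 : dg sE (sEᵀ)⁻¹ sw * mt h = mt h * dg sE (sEᵀ)⁻¹ sw := hh
        rw [e1] at hh2
        exact cm_blk hh2
      obtain ⟨ρ, hρ⟩ := ch.equiv gL hc
      refine ⟨fromBlocks 1 0 0 ρ, fun g hg => ?_⟩
      obtain ⟨p1, p2⟩ := Psi_mul hF hJ g h (hq g hg) gL h2 e1 e3
      obtain ⟨r1, r2⟩ := hρ _ (hqL g hg)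
      refine ⟨(hq1' _).2 ⟨p1, ?_⟩, ?_⟩
      · show ch.q0 (Psi hF hJ (g * h)) ≠ 0
        rw [p2]
        exact r1
      · intro j
        rw [Fintype.sum_sum_type]
        rcases j with j | j
        · show ub false Jw 1 (mt (g * h)) j = _
          rw [mt_mul, e1, ub_mul_dg _ _ e3 e2]
          simp [Matrix.one_apply]
        · show ch.t (Psi hF hJ (g * h)) j = _
          rw [p2, r2 j]
          simp }

end Pool.Agent.Helper97.SPN
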