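import Pool.Agent.Helper67.SPN.Rho
import Pool.Agent.Helper14.RG.LC.Cl1

/-!
# Regular functions on the spin group: translations, products, inverses, the covering
-/

namespace Pool.Agent.Helper67.SPN

open Matrix CliffordAlgebra Pool.Agent.Helper14.RG Pool.Agent.Helper97.CG

section creg

variable {k : Type*} [Field k] [CharZero k] {n : Type} [Fintype n] [DecidableEq n] {X : Type*}

/-- A map to the Clifford algebra with coordinates in `B`. -/
def CReg (B : Subalgebra k (X → k)) (f : X → Cln n k) : Prop :=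
  ∀ φ : Cln n k →ₗ[k] k, (fun x => φ (f x)) ∈ B

variable {B : Subalgebra k (X → k)}

lemma CReg.const (c : Cln n k) : CReg B (fun _ => c) := fun φ =>
  Subalgebra.algebraMap_mem B (φ c)

lemma CReg.lin {f : X → Cln n k} (hf : CReg B f) (L : Cln n k →ₗ[k] Cln n k) :
    CReg B (fun x => L (f x)) := fun φ => hf (φ.comp L)

/-- bilinear functions -/
lemma CReg.bil {f f' : X → Cln n k} (hf : CReg B f) (hf' : CReg B f')
    (β : Cln n k →ₗ[k] Cln n k →ₗ[k] k) : (fun x => β (f x) (f' x)) ∈ B := by
  classical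
  let b := Module.finBasis k (Cln n k)
  have h1 : (fun x => β (f x) (f' x))
      = ∑ i, (fun x => (b.coord i) (f x)) * (fun x => (β (b i)) (f' x)) := by
    funext x
    rw [Finset.sum_apply]
    have h2 : β (f x) = ∑ i, (b.coord i) (f x) • β (b i) := by
      nth_rewrite 1 [← b.sum_repr (f x)]
      rw [map_sum]
      refine Finset.sum_congr rfl fun i _ => ?_
      rw [map_smul]
      rfl
    rw [h2, LinearMap.sum_apply]
    rfl
  rw [h1]
  exact sum_mem fun i _ => mul_mem (hf _) (hf' _)

lemma CReg.mul {f f' : X → Cln n k} (hf : CReg B f) (hf' : CReg B f') :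
    CReg B (fun x => f x * f' x) := fun φ =>
  hf.bil hf' ((LinearMap.mul k (Cln n k)).compr₂ φ)

lemma CReg.add {f f' : X → Cln n k} (hf : CReg B f) (hf' : CReg B f') :
    CReg B (fun x => f x + f' x) := fun φ => by
  have h : (fun x => φ (f x + f' x)) = (fun x => φ (f x)) + fun x => φ (f' x) := by
    funext x
    exact map_add φ _ _
  rw [h]
  exact add_mem (hf φ) (hf' φ)

lemma CReg.smul {f : X → Cln n k} (hf : CReg B f) {c : X → k} (hc : c ∈ B) :
    CReg B (fun x => c x • f x) := fun φ => by
  have h : (fun x => φ (c x • f x)) = c * fun x => φ (f x) := by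
    funext x
    exact map_smul φ _ _
  rw [h]
  exact mul_mem hc (hf φ)

lemma CReg.sum {ι' : Type*} (s : Finset ι') {f : ι' → X → Cln n k} (hf : ∀ i, CReg B (f i)) :
    CReg B (fun x => ∑ i ∈ s, f i x) := fun φ => by
  have h : (fun x => φ (∑ i ∈ s, f i x)) = ∑ i ∈ s, fun x => φ (f i x) := by
    funext x
    rw [Finset.sum_apply, map_sum]
  rw [h]
  exact sum_mem fun i _ => hf i φ

/-- `star` as a linear map -/
noncomputable def starL (n : Type) [Fintype n] (k : Type*) [Field k] : Cln n k →ₗ[k] Cln n k :=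
  (reverse : Cln n k →ₗ[k] Cln n k).comp (involute : Cln n k →ₐ[k] Cln n k).toLinearMap

lemma starL_apply (x : Cln n k) : starL n k x = star x := rfl

lemma CReg.star {f : X → Cln n k} (hf : CReg B f) : CReg B (fun x => star (f x)) :=
  hf.lin (starL n k)

lemma CReg.involute {f : X → Cln n k} (hf : CReg B f) :
    CReg B (fun x => CliffordAlgebra.involute (f x)) :=
  hf.lin (CliffordAlgebra.involute : Cln n k →ₐ[k] Cln n k).toLinearMap

/-- the vector map of a family of vectors with coordinates in `B` -/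
lemma CReg.ι {v : X → n → k} (hv : ∀ i, (fun x => v x i) ∈ B) :
    CReg B (fun x => ι (Qn n k) (v x)) := fun φ => by
  have h : (fun x => φ (CliffordAlgebra.ι (Qn n k) (v x)))
      = ∑ i, (fun x => v x i) * fun _ => φ (CliffordAlgebra.ι (Qn n k) (Pi.single i 1)) := by
    funext x
    rw [Finset.sum_apply]
    nth_rewrite 1 [pi_eq_sum_univ' (v x)]
    rw [map_sum, map_sum]
    refine Finset.sum_congr rfl fun i _ => ?_
    rw [map_smul, map_smul]
    rfl
  rw [h]
  exact sum_mem fun i _ => mul_mem (hv i) (Subalgebra.algebraMap_mem B _)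

/-- a left inverse of `ι` -/
lemma exists_vec (n : Type) [Fintype n] [DecidableEq n] (k : Type*) [Field k] [CharZero k] :
    ∃ L : Cln n k →ₗ[k] (n → k), ∀ v, L (CliffordAlgebra.ι (Qn n k) v) = v := by
  obtain ⟨L, hL⟩ := (CliffordAlgebra.ι (Qn n k)).exists_leftInverse_of_injective
    (LinearMap.ker_eq_bot.mpr (ι_injective (Qn n k)))
  exact ⟨L, fun v => LinearMap.congr_fun hL v⟩

end creg

section spin

variable {k : Type*} [Field k] {n : Type} [Fintype n]

lemma lin_mem (φ : Cln n k →ₗ[k] k) : (fun g : SpinG n k => φ (g : Cln n k)) ∈ sAlg n k :=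
  Algebra.subset_adjoin ⟨φ, rfl⟩

lemma sAlg_comp {X : Type*} (B : Subalgebra k (X → k)) (f : X → SpinG n k)
    (h : ∀ φ : Cln n k →ₗ[k] k, (fun x => φ (f x : Cln n k)) ∈ B) {a : SpinG n k → k}
    (ha : a ∈ sAlg n k) : (fun x => a (f x)) ∈ B := by
  induction ha using Algebra.adjoin_induction with
  | mem x hx =>
    obtain ⟨φ, rfl⟩ := hx
    exact h φ
  | algebraMap r => exact Subalgebra.algebraMap_mem _ r
  | add x y _ _ hx hy => exact add_mem hx hy
  | mul x y _ _ hx hy => exact mul_mem hx hy

variable [DecidableEq n] [CharZero k]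

lemma coe_creg : CReg (sAlg n k) (fun g : SpinG n k => (g : Cln n k)) := lin_mem

lemma spin_rstable : RStable (sAlg n k) := by
  intro h a ha
  refine sAlg_comp (sAlg n k) (fun g => g * h) ?_ ha
  exact coe_creg.mul (CReg.const (h : Cln n k))

lemma spin_grpAlg : GrpAlg (sAlg n k) := by
  refine ⟨?_, ?_⟩
  · intro a ha
    refine sAlg_comp _ (fun x : SpinG n k × SpinG n k => x.1 * x.2) ?_ ha
    refine CReg.mul (f := fun x : SpinG n k × SpinG n k => (x.1 : Cln n k))
      (f' := fun x : SpinG n k × SpinG n k => (x.2 : Cln n k)) ?_ ?_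
    · intro φ
      exact Algebra.subset_adjoin ⟨_, lin_mem φ, Or.inl rfl⟩
    · intro φ
      exact Algebra.subset_adjoin ⟨_, lin_mem φ, Or.inr rfl⟩
  · intro a ha
    refine sAlg_comp (sAlg n k) (fun g => g⁻¹) ?_ ha
    exact coe_creg.star

/-- the entries of the covering are regular -/
lemma rho_entry_mem (i j : n) :
    (fun g : SpinG n k => isoHom 1 (rho n k g) i j) ∈ sAlg n k := by
  obtain ⟨L, hL⟩ := exists_vec n k
  have h1 : CReg (sAlg n k) (fun g : SpinG n k =>
      (g : Cln n k) * ι (Qn n k) (Pi.single j 1) * star (g : Cln n k)) :=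
    (coe_creg.mul (CReg.const _)).mul coe_creg.star
  have h2 := h1 ((LinearMap.proj i).comp L)
  have h3 : (fun g : SpinG n k => isoHom 1 (rho n k g) i j) = fun g : SpinG n k =>
      ((LinearMap.proj i).comp L)
        ((g : Cln n k) * ι (Qn n k) (Pi.single j 1) * star (g : Cln n k)) := by
    funext g
    rw [← rho_spec, LinearMap.comp_apply, hL, LinearMap.proj_apply, mulVec_single_one]
    rfl
  rw [h3]
  exact h2

/-- the covering is regular -/
lemma rho_reg {a : IsoG (1 : Matrix n n k) → k} (ha : a ∈ mAlg (isoHom (1 : Matrix n n k))) :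
    (fun g => a (rho n k g)) ∈ sAlg n k :=
  mAlg_comp 1 (sAlg n k) (rho n k) rho_entry_mem ha

lemma spin_coe_inj {g h : SpinG n k} (hgh : (g : Cln n k) = h) : g = h := Subtype.ext hgh

end spin

end Pool.Agent.Helper67.SPN
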