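import Pool.Agent.Helper67.SPN.Cl
import Pool.Agent.Helper51.CG.GENS

/-!
# The covering `Spin_n → SO_n`
-/

namespace Pool.Agent.Helper67.SPN

open Matrix CliffordAlgebra Pool.Agent.Helper14.RG Pool.Agent.Helper97.CG

universe u

section refl

variable {k : Type*} [Field k] {n : Type} [Fintype n] [DecidableEq n]

/-- The reflection along `a`. -/
def refl (a : n → k) : Matrix n n k := 1 - (2 / (a ⬝ᵥ a)) • vecMulVec a a

lemma refl_mulVec (a v : n → k) : refl a *ᵥ v = v - (2 * (a ⬝ᵥ v) / (a ⬝ᵥ a)) • a := by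
  unfold refl
  rw [sub_mulVec, one_mulVec]
  congr 1
  ext i
  simp only [mulVec, dotProduct, Matrix.smul_apply, vecMulVec_apply, Pi.smul_apply, smul_eq_mul,
    Finset.mul_sum, Finset.sum_mul, Finset.sum_div]
  refine Finset.sum_congr rfl fun j _ => ?_
  ring

lemma refl_transpose (a : n → k) : (refl a)ᵀ = refl a := by
  unfold refl
  rw [transpose_sub, transpose_one, transpose_smul, transpose_vecMulVec]

lemma refl_mul_self (a : n → k) (ha : a ⬝ᵥ a ≠ 0) : refl a * refl a = 1 := by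
  unfold refl
  rw [sub_mul, mul_sub, mul_sub, one_mul, mul_one, one_mul, smul_mul_smul_comm,
    vecMulVec_mul_vecMulVec]
  ext i j
  simp only [Matrix.sub_apply, Matrix.smul_apply, vecMulVec_apply, Pi.smul_apply, smul_eq_mul]
  field_simp
  ring

lemma refl_smul (a : n → k) (c : k) (hc : c ≠ 0) : refl (c • a) = refl a := by
  unfold refl
  congr 1
  ext i j
  simp only [Matrix.smul_apply, vecMulVec_apply, Pi.smul_apply, smul_eq_mul, smul_dotProduct,
    dotProduct_smul]
  by_cases ha : a ⬝ᵥ a = 0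
  · rw [ha]; simp
  · field_simp

lemma refl_det (a : n → k) (ha : a ⬝ᵥ a ≠ 0) : (refl a).det = -1 := by
  have h1 : refl a = 1 + replicateCol Unit (-(2 / (a ⬝ᵥ a)) • a) * replicateRow Unit a := by
    unfold refl
    ext i j
    simp [Matrix.mul_apply, vecMulVec_apply]
    ring
  rw [h1, det_one_add_replicateCol_mul_replicateRow]
  simp only [dotProduct_smul, smul_eq_mul]
  field_simp
  ring

/-- the reflections generate -/
lemma gens [IsAlgClosed k] [CharZero k] (x : Matrix n n k) (hx : xᵀ * x = 1) :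
    x ∈ Submonoid.closure {R : Matrix n n k | ∃ v : n → k, v ⬝ᵥ v ≠ 0 ∧ R = refl v} := by
  have hJ : IsForm (1 : k) (1 : Matrix n n k) :=
    ⟨Or.inl rfl, by rw [one_smul, transpose_one], by rw [det_one]; exact one_ne_zero⟩
  have h := Pool.Agent.Helper51.CG.st_GENS k n 1 hJ x (by rw [Matrix.mul_one, hx])
  refine Submonoid.closure_mono ?_ h
  rintro R ⟨v, hv, rfl⟩
  refine ⟨v, by simpa using hv, ?_⟩
  unfold refl
  rw [one_mulVec]

end refl

section cov

variable {k : Type*} [Field k] {n : Type} [Fintype n] [DecidableEq n]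

/-- sign of a parity -/
def sg (k : Type*) [Field k] (i : ZMod 2) : k := if i = 0 then 1 else -1

lemma sg_zero : sg k 0 = 1 := rfl

lemma sg_one : sg k 1 = -1 := rfl

lemma z2_cases (i : ZMod 2) : i = 0 ∨ i = 1 := by
  revert i
  decide

lemma sg_add (i j : ZMod 2) : sg k (i + j) = sg k i * sg k j := by
  rcases z2_cases i with rfl | rfl <;> rcases z2_cases j with rfl | rfl
  · rw [add_zero, sg_zero, one_mul]
  · rw [zero_add, sg_zero, one_mul]
  · rw [add_zero, sg_zero, mul_one]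
  · rw [show (1 : ZMod 2) + 1 = 0 from rfl, sg_zero, sg_one, neg_mul_neg, one_mul]

lemma sg_sq (i : ZMod 2) : sg k i * sg k i = 1 := by
  rcases z2_cases i with rfl | rfl
  · rw [sg_zero, one_mul]
  · rw [sg_one, neg_mul_neg, one_mul]

lemma involute_evenOdd {i : ZMod 2} {y : Cln n k} (hy : y ∈ evenOdd (Qn n k) i) :
    involute y = sg k i • y := by
  rcases z2_cases i with rfl | rfl
  · rw [sg_zero, one_smul]
    exact involute_eq_of_mem_even hy
  · rw [sg_one, neg_smul, one_smul]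
    exact involute_eq_of_mem_odd hy

/-- `y` (with inverse `z` and parity `i`) covers the orthogonal matrix `A`. -/
structure Cov (y z : Cln n k) (A : Matrix n n k) (i : ZMod 2) : Prop where
  par : y ∈ evenOdd (Qn n k) i
  mul_inv : y * z = 1
  inv_mul : z * y = 1
  orth : Aᵀ * A = 1
  det : A.det = sg k i
  act : ∀ v, involute y * ι (Qn n k) v * z = ι (Qn n k) (A *ᵥ v)

lemma Cov.one : Cov (n := n) (k := k) 1 1 1 0 where
  par := SetLike.GradedOne.one_mem
  mul_inv := one_mul 1
  inv_mul := one_mul 1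
  orth := by rw [transpose_one, Matrix.mul_one]
  det := by rw [det_one, sg_zero]
  act v := by rw [map_one, one_mul, mul_one, one_mulVec]

lemma Cov.mul {y z y' z' : Cln n k} {A A' : Matrix n n k} {i j : ZMod 2} (h : Cov y z A i)
    (h' : Cov y' z' A' j) : Cov (y * y') (z' * z) (A * A') (i + j) where
  par := SetLike.GradedMul.mul_mem h.par h'.par
  mul_inv := by
    calc y * y' * (z' * z) = y * (y' * z') * z := by simp only [mul_assoc]
      _ = 1 := by rw [h'.mul_inv, mul_one, h.mul_inv]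
  inv_mul := by
    calc z' * z * (y * y') = z' * (z * y) * y' := by simp only [mul_assoc]
      _ = 1 := by rw [h.inv_mul, mul_one, h'.inv_mul]
  orth := by
    rw [transpose_mul]
    calc A'ᵀ * Aᵀ * (A * A') = A'ᵀ * (Aᵀ * A) * A' := by simp only [Matrix.mul_assoc]
      _ = 1 := by rw [h.orth, Matrix.mul_one, h'.orth]
  det := by rw [det_mul, h.det, h'.det, sg_add]
  act v := by
    calc involute (y * y') * ι (Qn n k) v * (z' * z)
        = involute y * (involute y' * ι (Qn n k) v * z') * z := by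
          rw [map_mul]; simp only [mul_assoc]
      _ = ι (Qn n k) ((A * A') *ᵥ v) := by rw [h'.act, h.act, mulVec_mulVec]

lemma Cov.vec (a : n → k) (ha : a ⬝ᵥ a ≠ 0) (c : k) (hc : c ≠ 0) :
    Cov (c • ι (Qn n k) a) ((c * (a ⬝ᵥ a))⁻¹ • ι (Qn n k) a) (refl a) 1 where
  par := Submodule.smul_mem _ _ (ι_mem_evenOdd_one _ _)
  mul_inv := by
    rw [smul_mul_smul_comm, ι_sq, Algebra.algebraMap_eq_smul_one, smul_smul]
    have h1 : c * (c * (a ⬝ᵥ a))⁻¹ * (a ⬝ᵥ a) = 1 := by field_simp
    rw [h1, one_smul]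
  inv_mul := by
    rw [smul_mul_smul_comm, ι_sq, Algebra.algebraMap_eq_smul_one, smul_smul]
    have h1 : (c * (a ⬝ᵥ a))⁻¹ * c * (a ⬝ᵥ a) = 1 := by field_simp
    rw [h1, one_smul]
  orth := by rw [refl_transpose, refl_mul_self a ha]
  det := by rw [refl_det a ha, sg_one]
  act v := by
    have h1 : ι (Qn n k) a * ι (Qn n k) v * ι (Qn n k) a
        = (2 * (a ⬝ᵥ v)) • ι (Qn n k) a - (a ⬝ᵥ a) • ι (Qn n k) v := by
      have h2 : ι (Qn n k) a * ι (Qn n k) v
          = algebraMap k _ (2 * (a ⬝ᵥ v)) - ι (Qn n k) v * ι (Qn n k) a :=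
        eq_sub_of_add_eq (ι_mul_ι a v)
      rw [h2, sub_mul, mul_assoc, ι_sq, ← Algebra.smul_def, ← Algebra.commutes (a ⬝ᵥ a),
        ← Algebra.smul_def]
    rw [map_smul, involute_ι, refl_mulVec, smul_neg, neg_mul, neg_mul, smul_mul_assoc,
      smul_mul_smul_comm, h1, map_sub, map_smul, smul_sub, smul_smul, smul_smul]
    have h3 : c * (c * (a ⬝ᵥ a))⁻¹ * (2 * (a ⬝ᵥ v)) = 2 * (a ⬝ᵥ v) / (a ⬝ᵥ a) := by field_simp
    have h4 : c * (c * (a ⬝ᵥ a))⁻¹ * (a ⬝ᵥ a) = 1 := by field_simp
    rw [h3, h4, one_smul]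
    abel

lemma Cov.involute_inv {y z : Cln n k} {A : Matrix n n k} {i : ZMod 2} (h : Cov y z A i) :
    involute z = sg k i • z := by
  have h3 : involute y * involute z = 1 := by rw [← map_mul, h.mul_inv, map_one]
  rw [involute_evenOdd h.par, smul_mul_assoc] at h3
  calc involute z = z * (y * involute z) := by rw [← mul_assoc, h.inv_mul, one_mul]
    _ = z * (sg k i • (sg k i • (y * involute z))) := by rw [smul_smul, sg_sq, one_smul]
    _ = sg k i • z := by rw [h3, mul_smul_comm, mul_one]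

lemma Cov.act' {y z : Cln n k} {A : Matrix n n k} {i : ZMod 2} (h : Cov y z A i) (v : n → k) :
    y * ι (Qn n k) v * z = sg k i • ι (Qn n k) (A *ᵥ v) := by
  rw [← h.act, involute_evenOdd h.par, smul_mul_assoc, smul_mul_assoc, smul_smul, sg_sq, one_smul]

variable [CharZero k]

lemma one_ne_neg_one' : (1 : k) ≠ -1 := by
  intro h0
  have : (2 : k) = 0 := by linear_combination h0
  exact two_ne_zero this

lemma sg_inj {i j : ZMod 2} (h : sg k i = sg k j) : i = j := by
  rcases z2_cases i with rfl | rfl <;> rcases z2_cases j with rfl | rfl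
  · rfl
  · exact absurd h one_ne_neg_one'
  · exact absurd h.symm one_ne_neg_one'
  · rfl

/-- two covers of the same matrix are proportional -/
lemma Cov.unique {y z y' z' : Cln n k} {A : Matrix n n k} {i j : ZMod 2} (h : Cov y z A i)
    (h' : Cov y' z' A j) : i = j ∧ ∃ c : k, y' = c • y := by
  have hij : i = j := sg_inj (k := k) (by rw [← h.det, ← h'.det])
  refine ⟨hij, ?_⟩
  subst hij
  obtain ⟨c, hc⟩ := lemmaZ (z * y') (by
    intro v
    have h1 : involute (z * y') = z * y' := by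
      rw [map_mul, h.involute_inv, involute_evenOdd h'.par, smul_mul_smul_comm, sg_sq, one_smul]
    have h2 : y * ι (Qn n k) v * z = y' * ι (Qn n k) v * z' := by rw [h.act', h'.act']
    rw [h1]
    calc ι (Qn n k) v * (z * y') = (z * y) * ι (Qn n k) v * z * y' := by
          rw [h.inv_mul, one_mul]; simp only [mul_assoc]
      _ = z * (y * ι (Qn n k) v * z) * y' := by simp only [mul_assoc]
      _ = z * y' * ι (Qn n k) v * (z' * y') := by rw [h2]; simp only [mul_assoc]
      _ = z * y' * ι (Qn n k) v := by rw [h'.inv_mul, mul_one])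
  refine ⟨c, ?_⟩
  calc y' = y * (z * y') := by rw [← mul_assoc, h.mul_inv, one_mul]
    _ = c • y := by rw [hc, ← Algebra.commutes, Algebra.smul_def]

/-- every element of the Lipschitz group covers a matrix -/
lemma lipschitz_cov (x : (Cln n k)ˣ) (hx : x ∈ lipschitzGroup (Qn n k)) :
    ∃ (A : Matrix n n k) (i : ZMod 2), Cov (x : Cln n k) ((x⁻¹ : (Cln n k)ˣ) : Cln n k) A i := by
  have key : ∀ (y : (Cln n k)ˣ) (a : n → k), ι (Qn n k) a = (y : Cln n k) → a ⬝ᵥ a ≠ 0 := by
    intro y a ha h0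
    have h1 := ι_sq a
    rw [ha, h0, map_zero] at h1
    have h2 : (y : Cln n k) = 0 := by
      calc (y : Cln n k) = ((y⁻¹ : (Cln n k)ˣ) : Cln n k) * (y * y) := by
            rw [← mul_assoc, Units.inv_mul, one_mul]
        _ = 0 := by rw [h1, mul_zero]
    exact Units.ne_zero y h2
  unfold lipschitzGroup at hx
  induction hx using Subgroup.closure_induction'' with
  | mem y hy =>
    obtain ⟨a, ha⟩ := hy
    have h0 := key y a ha
    have h1 := Cov.vec a h0 1 one_ne_zero
    rw [one_smul, one_mul, ha] at h1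
    have h2 : (a ⬝ᵥ a)⁻¹ • (y : Cln n k) = ((y⁻¹ : (Cln n k)ˣ) : Cln n k) := by
      calc (a ⬝ᵥ a)⁻¹ • (y : Cln n k)
          = (a ⬝ᵥ a)⁻¹ • (y : Cln n k) * (y * ((y⁻¹ : (Cln n k)ˣ) : Cln n k)) := by
            rw [Units.mul_inv, mul_one]
        _ = ((y⁻¹ : (Cln n k)ˣ) : Cln n k) := by
          rw [← mul_assoc, h1.inv_mul, one_mul]
    rw [h2] at h1
    exact ⟨_, _, h1⟩
  | inv_mem y hy =>
    obtain ⟨a, ha⟩ := hy
    have h0 := key y a ha
    have h1 := Cov.vec a h0 (a ⬝ᵥ a)⁻¹ (inv_ne_zero h0)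
    rw [inv_mul_cancel₀ h0, inv_one, one_smul, ha] at h1
    have h2 : (a ⬝ᵥ a)⁻¹ • (y : Cln n k) = ((y⁻¹ : (Cln n k)ˣ) : Cln n k) := by
      calc (a ⬝ᵥ a)⁻¹ • (y : Cln n k)
          = (a ⬝ᵥ a)⁻¹ • (y : Cln n k) * (y * ((y⁻¹ : (Cln n k)ˣ) : Cln n k)) := by
            rw [Units.mul_inv, mul_one]
        _ = ((y⁻¹ : (Cln n k)ˣ) : Cln n k) := by
          rw [← mul_assoc, h1.mul_inv, one_mul]
    rw [h2] at h1
    rw [inv_inv]
    exact ⟨_, _, h1⟩
  | one =>
    rw [inv_one, Units.val_one]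
    exact ⟨1, 0, Cov.one⟩
  | mul y z _ _ hy hz =>
    obtain ⟨A, i, hA⟩ := hy
    obtain ⟨B, j, hB⟩ := hz
    rw [_root_.mul_inv_rev, Units.val_mul, Units.val_mul]
    exact ⟨_, _, hA.mul hB⟩

/-- elements of the pin group -/
lemma pin_cov (x : Cln n k) (hx : x ∈ pinGroup (Qn n k)) :
    ∃ (A : Matrix n n k) (i : ZMod 2), Cov x (star x) A i := by
  obtain ⟨y, hy, hyx⟩ := pinGroup.mem_lipschitzGroup hx
  obtain ⟨A, i, h⟩ := lipschitz_cov y hy
  have h0 : (y : Cln n k) = x := hyx
  have h1 : ((y⁻¹ : (Cln n k)ˣ) : Cln n k) = star x := by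
    calc ((y⁻¹ : (Cln n k)ˣ) : Cln n k) = ((y⁻¹ : (Cln n k)ˣ) : Cln n k) * (x * star x) := by
          rw [pinGroup.mul_star_self_of_mem hx, mul_one]
      _ = star x := by rw [← mul_assoc, ← h0, Units.inv_mul, one_mul]
  rw [h0, h1] at h
  exact ⟨A, i, h⟩

/-- elements of the spin group -/
lemma spin_cov (x : Cln n k) (hx : x ∈ spinGroup (Qn n k)) :
    ∃ A : Matrix n n k, Cov x (star x) A 0 := by
  obtain ⟨A, i, h⟩ := pin_cov x (spinGroup.mem_pin hx)
  rcases z2_cases i with rfl | rfl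
  · exact ⟨A, h⟩
  · exfalso
    have h1 := involute_eq_of_mem_odd h.par
    have h2 := spinGroup.involute_eq hx
    have h3 : (2 : k) • x = 0 := by
      rw [two_smul]
      nth_rewrite 1 [← h2]
      rw [h1, neg_add_cancel]
    have h4 : x = 0 := (smul_eq_zero.mp h3).resolve_left two_ne_zero
    have h5 := h.mul_inv
    rw [h4, zero_mul] at h5
    exact zero_ne_one h5

/-- pin lifts -/
lemma pin_lift [IsAlgClosed k] (A : Matrix n n k) (hA : Aᵀ * A = 1) :
    ∃ (y : Cln n k) (i : ZMod 2), y ∈ pinGroup (Qn n k) ∧ Cov y (star y) A i := by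
  have h := gens A hA
  clear hA
  induction h using Submonoid.closure_induction with
  | mem x hx =>
    obtain ⟨v, hv, rfl⟩ := hx
    obtain ⟨c, hc⟩ := IsAlgClosed.exists_pow_nat_eq (-(v ⬝ᵥ v)⁻¹) (n := 2) two_pos
    have hc0 : c ≠ 0 := by
      rintro rfl
      rw [zero_pow two_ne_zero] at hc
      exact inv_ne_zero hv (neg_eq_zero.mp hc.symm)
    have hs : (c • v) ⬝ᵥ (c • v) = -1 := by
      rw [smul_dotProduct, dotProduct_smul, smul_eq_mul, smul_eq_mul, ← mul_assoc, ← pow_two, hc,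
        neg_mul, inv_mul_cancel₀ hv]
    have hs0 : (c • v) ⬝ᵥ (c • v) ≠ 0 := by rw [hs]; exact neg_ne_zero.mpr one_ne_zero
    have h1 := Cov.vec (c • v) hs0 1 one_ne_zero
    have h2 : (1 * ((c • v) ⬝ᵥ (c • v)))⁻¹ • ι (Qn n k) (c • v)
        = star (ι (Qn n k) (c • v)) := by
      rw [star_ι, hs, one_mul, inv_neg, inv_one, neg_smul, one_smul]
    rw [h2, one_smul, refl_smul v c hc0] at h1
    refine ⟨ι (Qn n k) (c • v), 1, ?_, h1⟩
    refine ⟨⟨⟨_, _, h1.mul_inv, h1.inv_mul⟩, Subgroup.subset_closure ⟨c • v, rfl⟩, rfl⟩, ?_⟩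
    exact ⟨h1.inv_mul, h1.mul_inv⟩
  | one => exact ⟨1, 0, one_mem _, by rw [star_one]; exact Cov.one⟩
  | mul x y _ _ hx hy =>
    obtain ⟨a, i, ha, hA⟩ := hx
    obtain ⟨b, j, hb, hB⟩ := hy
    exact ⟨a * b, i + j, mul_mem ha hb, by rw [star_mul]; exact hA.mul hB⟩

end cov

section rho

variable {k : Type*} [Field k] [CharZero k] {n : Type} [Fintype n] [DecidableEq n]

lemma exists_rho (g : SpinG n k) : ∃ A : IsoG (1 : Matrix n n k),
    Cov (g : Cln n k) (star (g : Cln n k)) (isoHom 1 A) 0 := by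
  obtain ⟨A, h⟩ := spin_cov (g : Cln n k) g.2
  refine ⟨⟨⟨A, by rw [h.det, sg_zero]⟩, ?_⟩, h⟩
  show Aᵀ * 1 * A = 1
  rw [Matrix.mul_one, h.orth]

lemma cov_inj {y z : Cln n k} {A B : Matrix n n k} {i j : ZMod 2} (h : Cov y z A i)
    (h' : Cov y z B j) : A = B := by
  have h1 : ∀ v, A *ᵥ v = B *ᵥ v := by
    intro v
    apply ι_injective (Qn n k)
    rw [← h.act, ← h'.act]
  ext i j
  have h2 := congrFun (h1 (Pi.single j 1)) i
  rwa [mulVec_single_one, mulVec_single_one] at h2

/-- The covering `Spin_n → SO_n`. -/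
noncomputable def rho (n : Type) [Fintype n] [DecidableEq n] (k : Type*) [Field k] [CharZero k] :
    SpinG n k →* IsoG (1 : Matrix n n k) where
  toFun g := Classical.choose (exists_rho g)
  map_one' := by
    apply Subtype.ext
    apply Subtype.ext
    refine cov_inj (i := 0) (j := 0) (Classical.choose_spec (exists_rho (1 : SpinG n k))) ?_
    show Cov 1 (star 1) 1 0
    rw [star_one]
    exact Cov.one
  map_mul' g h := by
    apply Subtype.ext
    apply Subtype.ext
    refine cov_inj (i := 0) (j := 0) (Classical.choose_spec (exists_rho (g * h))) ?_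
    have h1 := (Classical.choose_spec (exists_rho g)).mul (Classical.choose_spec (exists_rho h))
    rw [← star_mul] at h1
    exact h1

lemma rho_cov (g : SpinG n k) :
    Cov (g : Cln n k) (star (g : Cln n k)) (isoHom 1 (rho n k g)) 0 :=
  Classical.choose_spec (exists_rho g)

lemma rho_spec (g : SpinG n k) (v : n → k) : ι (Qn n k) (isoHom 1 (rho n k g) *ᵥ v)
    = (g : Cln n k) * ι (Qn n k) v * star (g : Cln n k) := by
  rw [(rho_cov g).act', sg_zero, one_smul]

/-- The elements `1`, `-1` of the spin group. -/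
def zS (n : Type) [Fintype n] (k : Type*) [Field k] : Subgroup (SpinG n k) where
  carrier := {g | (g : Cln n k) = 1 ∨ (g : Cln n k) = -1}
  mul_mem' := by
    rintro a b (ha | ha) (hb | hb)
    · left; show (a : Cln n k) * b = 1; rw [ha, hb, one_mul]
    · right; show (a : Cln n k) * b = -1; rw [ha, hb, one_mul]
    · right; show (a : Cln n k) * b = -1; rw [ha, hb, mul_one]
    · left; show (a : Cln n k) * b = 1; rw [ha, hb, neg_mul_neg, one_mul]
  one_mem' := Or.inl rfl
  inv_mem' := by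
    rintro a (ha | ha)
    · left; show star (a : Cln n k) = 1; rw [ha, star_one]
    · right; show star (a : Cln n k) = -1; rw [ha, star_neg, star_one]

lemma mem_zS {g : SpinG n k} : g ∈ zS n k ↔ (g : Cln n k) = 1 ∨ (g : Cln n k) = -1 := Iff.rfl

lemma rho_ker : (rho n k).ker = zS n k := by
  ext g
  rw [MonoidHom.mem_ker, mem_zS]
  constructor
  · intro hg
    have h1 := rho_cov g
    rw [hg] at h1
    have h2 : Cov (g : Cln n k) (star (g : Cln n k)) (1 : Matrix n n k) 0 := h1
    obtain ⟨-, c, hc⟩ := Cov.one.unique h2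
    have h3 := h2.mul_inv
    rw [hc, CliffordAlgebra.star_smul, star_one, smul_mul_smul_comm, one_mul] at h3
    have h4 : c * c = 1 := by
      apply algebraMap_inj (Qn n k)
      rw [Algebra.algebraMap_eq_smul_one, h3, map_one]
    rcases mul_self_eq_one_iff.mp h4 with h5 | h5
    · left; rw [hc, h5, one_smul]
    · right; rw [hc, h5, neg_smul, one_smul]
  · intro hg
    apply Subtype.ext
    apply Subtype.ext
    refine cov_inj (rho_cov g) (?_ : Cov (g : Cln n k) (star (g : Cln n k)) 1 0)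
    rcases hg with hg | hg
    · rw [hg, star_one]; exact Cov.one
    · rw [hg, star_neg, star_one]
      refine ⟨?_, neg_mul_neg 1 1 |>.trans (one_mul 1), neg_mul_neg 1 1 |>.trans (one_mul 1),
        by rw [transpose_one, Matrix.mul_one], by rw [det_one, sg_zero], ?_⟩
      · exact neg_mem SetLike.GradedOne.one_mem
      · intro v
        rw [map_neg, map_one, neg_mul, one_mul, mul_neg, mul_one, neg_neg, one_mulVec]

lemma rho_surjective [IsAlgClosed k] : Function.Surjective (rho n k) := by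
  intro A
  have hA : (isoHom 1 A)ᵀ * isoHom 1 A = 1 := by
    have h := A.2
    have h' : (isoHom 1 A)ᵀ * 1 * isoHom 1 A = 1 := h
    rwa [Matrix.mul_one] at h'
  obtain ⟨y, i, hy, hc⟩ := pin_lift (isoHom 1 A) hA
  have hi : i = 0 := by
    apply sg_inj (k := k)
    rw [← hc.det, sg_zero]
    exact A.1.2
  subst hi
  refine ⟨⟨y, hy, hc.par⟩, ?_⟩
  apply Subtype.ext
  apply Subtype.ext
  exact cov_inj (rho_cov _) hc

end rho

end Pool.Agent.Helper67.SPN
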